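import Pool.Agent.J6H61.SM.Main

set_option autoImplicit false
set_option linter.unusedVariables false

/-! # Several moduli at the same time: the final form -/

namespace Pool.Agent.J6H61.SM

open Finset Filter Pool.Agent.H256R2.SC.G3

open scoped Classical

/-- the integers `a` in `(M, M + X]` prime to `D` such that for `w = (d, h) ∈ S` every prime in the
class `a + h` modulo `d` exceeds `Z w` -/
def NS (M X : ℝ) (D : ℕ) (S : Finset (ℕ × ℕ)) (Z : ℕ × ℕ → ℝ) : Set ℤ :=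
  {a : ℤ | M < a ∧ (a : ℝ) ≤ M + X ∧ IsCoprime a (D : ℤ) ∧
    ∀ w ∈ S, ∀ p : ℕ, p.Prime → (p : ℤ) ≡ a + w.2 [ZMOD w.1] → Z w < p}

theorem NS_finite (M X : ℝ) (D : ℕ) (S : Finset (ℕ × ℕ)) (Z : ℕ × ℕ → ℝ) :
    (NS M X D S Z).Finite := by
  apply (Set.finite_Icc ⌊M⌋ ⌈M + X⌉).subset
  intro a ha
  obtain ⟨h1, h2, _⟩ := ha
  rw [Set.mem_Icc]
  constructor
  · have := Int.floor_le M
    have h3 : ((⌊M⌋ : ℤ) : ℝ) < a := by linarith
    exact_mod_cast h3.le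
  · have := Int.le_ceil (M + X)
    have h3 : (a : ℝ) ≤ ((⌈M + X⌉ : ℤ) : ℝ) := by linarith
    exact_mod_cast h3

theorem NS_shift (M X : ℝ) (D : ℕ) (S : Finset (ℕ × ℕ)) (hS : ∀ w ∈ S, w.1 ∣ D) (Z : ℕ × ℕ → ℝ)
    (s : ℤ) : (NS M X D S Z).ncard ≤ (NS (M + s * D) X D S Z).ncard := by
  refine Set.ncard_le_ncard_of_injOn (fun a : ℤ => a + s * D) ?_ ?_ (NS_finite _ _ _ _ _)
  · rintro a ⟨h1, h2, h3, h4⟩
    refine ⟨by push_cast; linarith, by push_cast; linarith, ?_, ?_⟩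
    · have e : a + s * (D : ℤ) = a + D * s := by ring
      change IsCoprime (a + s * (D : ℤ)) (D : ℤ)
      rw [e]
      exact (IsCoprime.add_mul_left_left_iff).2 h3
    · intro w hw p hp hpm
      apply h4 w hw p hp
      refine Int.ModEq.trans hpm ?_
      obtain ⟨e, he⟩ := hS w hw
      apply Int.modEq_iff_dvd.2
      refine ⟨-(s * e), ?_⟩
      have : (D : ℤ) = w.1 * e := by exact_mod_cast he
      rw [this]
      ring
  · intro a _ b _ hab
    have : a + s * (D : ℤ) = b + s * D := hab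
    linarith

/-- the exceptional integers -/
theorem HS_sub (M X : ℝ) (D m : ℕ) (S : Finset (ℕ × ℕ)) (hSm : S.card ≤ m) (hX0 : 0 < X)
    (hS : ∀ w ∈ S, 0 < w.1 ∧ X ≤ w.1) (Z : ℕ × ℕ → ℝ) :
    ((HS M X (X ^ (1 / 4 : ℝ)) D S Z).ncard : ℝ) ≤
      ((NS M X D S Z).ncard : ℝ) + m * X ^ (1 / 4 : ℝ) := by
  set Y : ℕ := ⌊X ^ (1 / 4 : ℝ)⌋₊ with hY
  set W : Finset ℤ := Finset.Icc ⌊M⌋ ⌈M + X⌉ with hW
  set EX : Finset ℤ := (S ×ˢ Finset.Icc 1 Y).biUnion (fun q => W.filter (fun a : ℤ =>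
    M < a ∧ (a : ℝ) ≤ M + X ∧ (q.2 : ℤ) ≡ a + q.1.2 [ZMOD q.1.1])) with hEX
  have hEXc : (EX.card : ℝ) ≤ m * X ^ (1 / 4 : ℝ) := by
    have h1 : EX.card ≤ ∑ q ∈ S ×ˢ Finset.Icc 1 Y, 1 := by
      refine Finset.card_biUnion_le.trans (Finset.sum_le_sum ?_)
      intro q hq
      rw [mem_product] at hq
      obtain ⟨b1, b2⟩ := hS q.1 hq.1
      rw [Finset.card_le_one]
      intro a ha b hb
      rw [mem_filter] at ha hb
      obtain ⟨-, a1, a2, a3⟩ := ha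
      obtain ⟨-, c1, c2, c3⟩ := hb
      have h2 : (a : ℤ) + q.1.2 ≡ b + q.1.2 [ZMOD q.1.1] := a3.symm.trans c3
      have h3 : (q.1.1 : ℤ) ∣ b - a := by
        have := Int.modEq_iff_dvd.1 h2
        have e : b + (q.1.2 : ℤ) - (a + q.1.2) = b - a := by ring
        rwa [e] at this
      have h4 : b - a = 0 := by
        apply Int.eq_zero_of_abs_lt_dvd h3
        have h5 : |((b - a : ℤ) : ℝ)| < (q.1.1 : ℝ) := by
          push_cast
          rw [abs_lt]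
          constructor <;> linarith
        have h6 : ((|b - a| : ℤ) : ℝ) < ((q.1.1 : ℤ) : ℝ) := by
          rw [Int.cast_abs]
          push_cast at h5 ⊢
          exact h5
        exact_mod_cast h6
      omega
    rw [Finset.sum_const, smul_eq_mul, mul_one, card_product, Nat.card_Icc, Nat.add_sub_cancel] at h1
    have h2 : (EX.card : ℝ) ≤ S.card * Y := by exact_mod_cast h1
    have h3 : (Y : ℝ) ≤ X ^ (1 / 4 : ℝ) := Nat.floor_le (by positivity)
    have h4 : (S.card : ℝ) ≤ m := by exact_mod_cast hSm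
    refine h2.trans (mul_le_mul h4 h3 (Nat.cast_nonneg _) (Nat.cast_nonneg _))
  have hsub : HS M X (X ^ (1 / 4 : ℝ)) D S Z ⊆ NS M X D S Z ∪ (EX : Set ℤ) := by
    rintro a ⟨h1, h2, h3, h4⟩
    by_cases hN : ∀ w ∈ S, ∀ p : ℕ, p.Prime → (p : ℤ) ≡ a + w.2 [ZMOD w.1] → Z w < p
    · exact Or.inl ⟨h1, h2, h3, hN⟩
    · right
      push Not at hN
      obtain ⟨w, hw, p, hp, hpm, hpZ⟩ := hN
      obtain ⟨l, hl, hl1, hl2⟩ := h4 w hw p hp.one_lt.le hpm hpZ
      have h5 := (Nat.prime_dvd_prime_iff_eq hl hp).1 hl2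
      rw [h5] at hl1
      rw [Finset.mem_coe, hEX, mem_biUnion]
      refine ⟨(w, p), mem_product.2 ⟨hw, mem_Icc.2 ⟨hp.one_lt.le, Nat.le_floor hl1⟩⟩, ?_⟩
      rw [mem_filter, hW, mem_Icc]
      refine ⟨⟨?_, ?_⟩, h1, h2, hpm⟩
      · have := Int.floor_le M
        have h6 : ((⌊M⌋ : ℤ) : ℝ) < a := by linarith
        exact_mod_cast h6.le
      · have := Int.le_ceil (M + X)
        have h6 : (a : ℝ) ≤ ((⌈M + X⌉ : ℤ) : ℝ) := by linarith
        exact_mod_cast h6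
  have h7 : (HS M X (X ^ (1 / 4 : ℝ)) D S Z).ncard ≤ (NS M X D S Z).ncard + EX.card := by
    refine (Set.ncard_le_ncard hsub ((NS_finite _ _ _ _ _).union (Finset.finite_toSet _))).trans ?_
    refine (Set.ncard_union_le _ _).trans ?_
    rw [Set.ncard_coe_finset]
  have h8 : ((HS M X (X ^ (1 / 4 : ℝ)) D S Z).ncard : ℝ) ≤ (NS M X D S Z).ncard + EX.card := by
    exact_mod_cast h7
  linarith

/-- a lower bound for `φ(D) / D` -/
theorem phi_lower : ∃ D₀ : ℕ, ∀ D : ℕ, D₀ ≤ D → 1 / (4 * Real.log D) ≤ (D.totient : ℝ) / D := by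
  obtain ⟨D₀, hD₀⟩ := exists_nat_ge (Real.exp (Real.exp 4))
  refine ⟨D₀, fun D hD => ?_⟩
  have hDR : Real.exp (Real.exp 4) ≤ D := hD₀.trans (by exact_mod_cast hD)
  have hDpos : (0 : ℝ) < D := (Real.exp_pos _).trans_le hDR
  have hD0 : 0 < D := by exact_mod_cast hDpos
  have hL : Real.exp 4 ≤ Real.log D := by
    rw [Real.le_log_iff_exp_le hDpos]
    exact hDR
  have h4 : (5 : ℝ) ≤ Real.exp 4 := by
    have := Real.add_one_le_exp 4
    linarith
  have hLL : 4 ≤ Real.log (Real.log D) := by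
    rw [Real.le_log_iff_exp_le (by linarith)]
    exact hL
  obtain ⟨z, hz⟩ : ∃ z : ℕ, z = ⌈Real.log D⌉₊ := ⟨_, rfl⟩
  have hz1 : Real.log D ≤ z := by rw [hz]; exact Nat.le_ceil _
  have hz2 : (z : ℝ) < Real.log D + 1 := by rw [hz]; exact Nat.ceil_lt_add_one (by linarith)
  have hz3 : 2 ≤ z := by
    have : (2 : ℝ) ≤ z := by linarith
    exact_mod_cast this
  have hlogz : 4 ≤ Real.log z := hLL.trans (Real.log_le_log (by linarith) hz1)
  have h1 := DB_half z D hD0 hz3 (by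
    have : Real.log D * 4 ≤ z * Real.log z := mul_le_mul hz1 hlogz (by norm_num) (by linarith)
    linarith)
  have h2 := ratio z D hD0
  have h3 : 1 / ((z : ℝ) + 1) ≤ ((RR z D).card : ℝ) / QZ z := by
    have hW := W_le z
    have e1 : ∏ p ∈ PZ z, (1 - 1 / (p : ℝ)) ≤ ((RR z D).card : ℝ) / QZ z := by
      rw [RR_card]
      unfold QZ
      push_cast
      rw [← Finset.prod_div_distrib]
      apply Finset.prod_le_prod
      · intro p hp
        exact (fac_bd (PZ_prime hp).1.two_le).1.le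
      · intro p hp
        have hpp := (PZ_prime hp).1
        have hp0 : (0 : ℝ) < p := by exact_mod_cast hpp.pos
        rw [np_eq hpp, le_div_iff₀ hp0]
        have e : (1 - 1 / (p : ℝ)) * p = p - 1 := by field_simp
        rw [e]
        split_ifs <;> linarith
    refine le_trans ?_ e1
    have e2 : 0 < ∏ p ∈ PZ z, (1 - 1 / (p : ℝ)) :=
      Finset.prod_pos fun p hp => (fac_bd (PZ_prime hp).1.two_le).1
    rw [Finset.prod_inv_distrib] at hW
    rw [div_le_iff₀ (by positivity)]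
    have e3 : (∏ p ∈ PZ z, (1 - 1 / (p : ℝ)))⁻¹ * ∏ p ∈ PZ z, (1 - 1 / (p : ℝ)) = 1 :=
      inv_mul_cancel₀ e2.ne'
    nlinarith
  rw [← h2]
  have h5 : 1 / ((z : ℝ) + 1) * (1 / 2) ≤
      ((RR z D).card : ℝ) / QZ z * (((DB z D).totient : ℝ) / DB z D) :=
    mul_le_mul h3 h1 (by norm_num) (by positivity)
  refine le_trans ?_ h5
  rw [← one_div_mul_one_div_rev, mul_comm]
  have : 1 / (4 * Real.log D) ≤ 1 / (2 * ((z : ℝ) + 1)) :=
    one_div_le_one_div_of_le (by positivity) (by linarith)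
  calc _ = 1 / (4 * Real.log D) := by rw [one_div_mul_one_div_rev]; ring_nf
    _ ≤ 1 / (2 * ((z : ℝ) + 1)) := this
    _ = _ := by rw [one_div_mul_one_div_rev]

theorem ev_fin (m : ℕ) (η E : ℝ) (hη : 0 < η) (hE : 0 < E) : ∃ D₀ : ℕ, ∀ D : ℕ, D₀ ≤ D →
    1 ≤ Real.log D ∧
    m * ((D : ℝ) ^ η) ^ (1 / 4 : ℝ) ≤ 1 / (4 * Real.log D) * (D : ℝ) ^ η * E / 4 := by
  have t0 : Tendsto (fun a : ℕ => (a : ℝ)) atTop atTop := tendsto_natCast_atTop_atTop
  have t1 := Real.tendsto_log_atTop.comp t0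
  have h2 : ∀ᶠ a : ℕ in atTop, 1 ≤ Real.log a := t1.eventually_ge_atTop _
  have e1 : ∀ᶠ x : ℝ in atTop, 16 * (m + 1) / (η * E) * Real.log x ≤ x ^ (3 / 4 : ℝ) := by
    have := (isLittleO_log_rpow_atTop (show (0:ℝ) < 3 / 4 by norm_num)).def
      (show (0:ℝ) < 1 / (16 * (m + 1) / (η * E)) by positivity)
    filter_upwards [this, eventually_ge_atTop (1:ℝ)] with x hx hx1
    have hl := Real.log_nonneg hx1
    have c1 : ‖Real.log x‖ = Real.log x := by rw [Real.norm_eq_abs, abs_of_nonneg hl]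
    have c2 : ‖x ^ (3 / 4 : ℝ)‖ = x ^ (3 / 4 : ℝ) := by
      rw [Real.norm_eq_abs, abs_of_nonneg (Real.rpow_nonneg (by linarith) _)]
    rw [c1, c2, one_div, ← div_eq_inv_mul, le_div_iff₀ (by positivity)] at hx
    linarith
  have e2 := ((tendsto_rpow_atTop hη).comp t0).eventually e1
  obtain ⟨D₀, hD₀⟩ := eventually_atTop.1 (h2.and (e2.and (eventually_ge_atTop 1)))
  refine ⟨D₀, fun D hD => ?_⟩
  obtain ⟨g1, g2, g3⟩ := hD₀ D hD
  have hDpos : (0 : ℝ) < D := by exact_mod_cast g3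
  refine ⟨g1, ?_⟩
  simp only [Function.comp] at g2
  rw [Real.log_rpow hDpos] at g2
  set X : ℝ := (D : ℝ) ^ η with hX
  have hX0 : 0 < X := Real.rpow_pos_of_pos hDpos _
  have e3 : X = X ^ (1 / 4 : ℝ) * X ^ (3 / 4 : ℝ) := by
    rw [← Real.rpow_add hX0]; norm_num
  have e4 : 16 * ((m : ℝ) + 1) * Real.log D ≤ E * X ^ (3 / 4 : ℝ) := by
    have : 16 * ((m : ℝ) + 1) / (η * E) * (η * Real.log D) = 16 * (m + 1) * Real.log D / E := by
      field_simp
    rw [this, div_le_iff₀ hE] at g2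
    linarith
  have hX4 : 0 < X ^ (1 / 4 : ℝ) := by positivity
  have e5 : 1 / (4 * Real.log D) * X * E / 4 = X ^ (1 / 4 : ℝ) * (E * X ^ (3 / 4 : ℝ)) /
      (16 * Real.log D) := by
    conv_lhs => rw [e3]
    field_simp
    norm_num
  rw [e5, le_div_iff₀ (by positivity)]
  have e6 : (m : ℝ) * (16 * Real.log D) ≤ 16 * ((m : ℝ) + 1) * Real.log D := by nlinarith
  calc (m : ℝ) * X ^ (1 / 4 : ℝ) * (16 * Real.log D) =
        X ^ (1 / 4 : ℝ) * (m * (16 * Real.log D)) := by ring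
    _ ≤ X ^ (1 / 4 : ℝ) * (E * X ^ (3 / 4 : ℝ)) :=
        mul_le_mul_of_nonneg_left (e6.trans e4) hX4.le

/-- **several moduli at the same time** -/
theorem tail_final : ∃ C : ℝ, 0 < C ∧ ∀ (m : ℕ) (A η : ℝ), 1 ≤ m → 1 ≤ A → 0 < η → η ≤ 1 →
    ∃ D₀ : ℕ, ∀ D : ℕ, D₀ ≤ D → ∀ S : Finset (ℕ × ℕ), S.card ≤ m →
    (∀ w ∈ S, w.1 ∣ D ∧ (D : ℝ) ^ η ≤ w.1 ∧ w.2 < w.1) → ∀ Z : ℕ × ℕ → ℝ, (∀ w ∈ S, 0 ≤ Z w) →
    ∑ w ∈ S, Z w / (w.1.totient : ℝ) ≤ A * Real.log D → ∀ M : ℝ,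
    (D.totient : ℝ) / D * (D : ℝ) ^ η * Real.exp (-Real.exp (C * (A / η))) ≤
      ((NS M ((D : ℝ) ^ η) D S Z).ncard : ℝ) := by
  obtain ⟨C₀, hC₀, h⟩ := tail_core
  have hlog4 : 0 < Real.log 4 := Real.log_pos (by norm_num)
  refine ⟨512 + C₀ + Real.log 4, by linarith, fun m A η hm hA hη hη1 => ?_⟩
  obtain ⟨D₁, h⟩ := h m A η hm hA hη hη1
  obtain ⟨D₂, hφ⟩ := phi_lower
  set E : ℝ := Real.exp (-Real.exp (16 * (32 * (A / η)) + C₀)) with hE
  have hE0 : 0 < E := Real.exp_pos _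
  obtain ⟨D₃, hev⟩ := ev_fin m η E hη hE0
  refine ⟨max (max D₁ D₂) (max D₃ 1), fun D hD S hSm hS Z hZ hZs M => ?_⟩
  have hD1 : D₁ ≤ D := ((le_max_left _ _).trans (le_max_left _ _)).trans hD
  have hD2 : D₂ ≤ D := ((le_max_right _ _).trans (le_max_left _ _)).trans hD
  have hD3 : D₃ ≤ D := ((le_max_left _ _).trans (le_max_right _ _)).trans hD
  have hD4 : 1 ≤ D := ((le_max_right _ _).trans (le_max_right _ _)).trans hD
  have hDpos : (0 : ℝ) < D := by exact_mod_cast hD4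
  have hDR1 : (1 : ℝ) ≤ D := by exact_mod_cast hD4
  obtain ⟨g1, g2⟩ := hev D hD3
  have hφD := hφ D hD2
  set X : ℝ := (D : ℝ) ^ η with hX
  have hX0 : 0 < X := Real.rpow_pos_of_pos hDpos _
  -- reduction to a start in `[0, D)`
  obtain ⟨s, hs⟩ : ∃ s : ℤ, s = ⌊M / D⌋ := ⟨_, rfl⟩
  have hs1 : 0 ≤ M - s * D := by
    have := Int.floor_le (M / D)
    rw [← hs, le_div_iff₀ hDpos] at this
    linarith
  have hs2 : M - s * D ≤ D := by
    have := Int.lt_floor_add_one (M / D)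
    rw [← hs, div_lt_iff₀ hDpos] at this
    linarith
  have h1 := h D hD1 S hSm hS Z hZ hZs (M - s * D) hs1 hs2
  have h2 := HS_sub (M - s * D) X D m S hSm hX0 (fun w hw => by
    have := hS w hw
    exact ⟨by omega, this.2.1⟩) Z
  have h3 := NS_shift (M - s * D) X D S (fun w hw => (hS w hw).1) Z s
  have e1 : M - s * D + s * D = M := by ring
  rw [e1] at h3
  have h4 : ((NS (M - s * D) X D S Z).ncard : ℝ) ≤ ((NS M X D S Z).ncard : ℝ) := by exact_mod_cast h3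
  refine le_trans ?_ h4
  have h5 : (m : ℝ) * X ^ (1 / 4 : ℝ) ≤ (D.totient : ℝ) / D * X * E / 4 := by
    refine g2.trans ?_
    have : 1 / (4 * Real.log D) * X * E ≤ (D.totient : ℝ) / D * X * E := by
      apply mul_le_mul_of_nonneg_right _ hE0.le
      exact mul_le_mul_of_nonneg_right hφD hX0.le
    linarith
  have h6 : (D.totient : ℝ) / D * X * E / 4 ≤ ((NS (M - s * D) X D S Z).ncard : ℝ) := by
    linarith
  refine le_trans ?_ h6
  have hAη : 1 ≤ A / η := by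
    rw [le_div_iff₀ hη]
    linarith
  have h7 : Real.log 4 + Real.exp (16 * (32 * (A / η)) + C₀) ≤
      Real.exp ((512 + C₀ + Real.log 4) * (A / η)) := by
    have e2 : 16 * (32 * (A / η)) + C₀ + Real.log 4 ≤ (512 + C₀ + Real.log 4) * (A / η) := by
      nlinarith
    have e3 : Real.exp (16 * (32 * (A / η)) + C₀ + Real.log 4) =
        Real.exp (16 * (32 * (A / η)) + C₀) * Real.exp (Real.log 4) := Real.exp_add _ _
    have e4 : 1 ≤ Real.exp (16 * (32 * (A / η)) + C₀) := Real.one_le_exp (by positivity)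
    have e5 : Real.log 4 + 1 ≤ Real.exp (Real.log 4) := Real.add_one_le_exp _
    calc Real.log 4 + Real.exp (16 * (32 * (A / η)) + C₀) ≤
          Real.exp (16 * (32 * (A / η)) + C₀) * Real.exp (Real.log 4) := by nlinarith
      _ = Real.exp (16 * (32 * (A / η)) + C₀ + Real.log 4) := e3.symm
      _ ≤ _ := Real.exp_le_exp.2 e2
  have h8 : Real.exp (-Real.exp ((512 + C₀ + Real.log 4) * (A / η))) ≤ E / 4 := by
    have e2 : E / 4 = Real.exp (-Real.exp (16 * (32 * (A / η)) + C₀) - Real.log 4) := by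
      rw [Real.exp_sub, Real.exp_log (by norm_num)]
    rw [e2]
    apply Real.exp_le_exp.2
    linarith
  have h9 : 0 ≤ (D.totient : ℝ) / D * X := by positivity
  calc (D.totient : ℝ) / D * X * Real.exp (-Real.exp ((512 + C₀ + Real.log 4) * (A / η))) ≤
        (D.totient : ℝ) / D * X * (E / 4) := mul_le_mul_of_nonneg_left h8 h9
    _ = _ := by ring

end Pool.Agent.J6H61.SM
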