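import Pool.Agent.J6H61.SM.Tail

set_option autoImplicit false
set_option linter.unusedVariables false

/-! # Several moduli at the same time: a positive proportion -/

namespace Pool.Agent.J6H61.SM

open Finset Filter Pool.Agent.H256R2.SC.G3 Pool.Agent.N837.LP

open scoped Classical

theorem markov {ι : Type} (R : Finset ι) (f : ι → ℝ) (μ : ℝ) (hμ : 0 ≤ μ) (hf : ∀ r ∈ R, 0 ≤ f r)
    (h : ∑ r ∈ R, f r ≤ (R.card : ℝ) * μ) :
    (R.card : ℝ) ≤ 2 * ((R.filter (fun r => f r ≤ 2 * μ)).card : ℝ) := by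
  by_contra hcon
  push Not at hcon
  set G := R.filter (fun r => f r ≤ 2 * μ) with hG
  set H := R.filter (fun r => ¬ f r ≤ 2 * μ) with hH
  have hGH : (R.card : ℝ) = G.card + H.card := by
    have : G.card + H.card = R.card := by
      rw [hG, hH]
      exact Finset.card_filter_add_card_filter_not _
    exact_mod_cast this.symm
  have hHR : (R.card : ℝ) < 2 * H.card := by linarith
  have hHpos : 0 < H.card := by
    have h0 : (0 : ℝ) ≤ R.card := Nat.cast_nonneg _
    have : (0 : ℝ) < H.card := by linarith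
    exact_mod_cast this
  have h1 : (H.card : ℝ) * (2 * μ) < ∑ r ∈ H, f r := by
    have : ∑ r ∈ H, (2 * μ) < ∑ r ∈ H, f r := by
      apply Finset.sum_lt_sum_of_nonempty (Finset.card_pos.1 hHpos)
      intro r hr
      rw [hH, mem_filter] at hr
      exact not_le.1 hr.2
    rwa [Finset.sum_const, nsmul_eq_mul] at this
  have h2 : ∑ r ∈ H, f r ≤ ∑ r ∈ R, f r :=
    Finset.sum_le_sum_of_subset_of_nonneg (filter_subset _ _) (fun r hr _ => hf r hr)
  nlinarith

/-- facts for large `D` -/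
theorem ev_tail (m : ℕ) (A η X₁ : ℝ) (hm : 1 ≤ m) (hη : 0 < η) : ∃ D₀ : ℕ, ∀ D : ℕ, D₀ ≤ D →
    10 ≤ D ∧ 1 ≤ Real.log D ∧ 400 * (m : ℝ) ≤ η * Real.log D ∧
    800 * (m : ℝ) / η ≤ Real.log (η * Real.log D / (200 * m)) ∧
    A * Real.log D ≤ D ∧ X₁ ≤ ((D : ℝ) ^ η) ^ (1 / 2 : ℝ) ∧
    η * Real.log D ≤ ((D : ℝ) ^ η) ^ (1 / 8 : ℝ) := by
  have t0 : Tendsto (fun a : ℕ => (a : ℝ)) atTop atTop := tendsto_natCast_atTop_atTop
  have t1 := Real.tendsto_log_atTop.comp t0
  have hmR : (0 : ℝ) < m := by exact_mod_cast hm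
  have h2 : ∀ᶠ a : ℕ in atTop, 1 ≤ Real.log a := t1.eventually_ge_atTop _
  have h3 : ∀ᶠ a : ℕ in atTop, 400 * (m : ℝ) / η ≤ Real.log a := t1.eventually_ge_atTop _
  have t2 : Tendsto (fun a : ℕ => Real.log (η * Real.log a / (200 * m))) atTop atTop := by
    apply Real.tendsto_log_atTop.comp
    apply Tendsto.atTop_div_const (by positivity)
    exact Tendsto.const_mul_atTop hη t1
  have h4 : ∀ᶠ a : ℕ in atTop, 800 * (m : ℝ) / η ≤ Real.log (η * Real.log a / (200 * m)) :=
    t2.eventually_ge_atTop _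
  have h5 : ∀ᶠ a : ℕ in atTop, |A| * Real.log a ≤ a := by
    have e1 : ∀ᶠ x : ℝ in atTop, |A| * Real.log x ≤ x := by
      have := (Real.isLittleO_log_id_atTop).def (show (0:ℝ) < 1 / (|A| + 1) by positivity)
      filter_upwards [this, eventually_ge_atTop (1:ℝ)] with x hx hx1
      have hl := Real.log_nonneg hx1
      have c1 : ‖Real.log x‖ = Real.log x := by rw [Real.norm_eq_abs, abs_of_nonneg hl]
      have c2 : ‖id x‖ = x := by rw [Real.norm_eq_abs, id, abs_of_nonneg (by linarith)]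
      rw [c1, c2, one_div, ← div_eq_inv_mul, le_div_iff₀ (by positivity)] at hx
      nlinarith
    exact t0.eventually e1
  have t3 : Tendsto (fun a : ℕ => ((a : ℝ) ^ η) ^ (1 / 2 : ℝ)) atTop atTop :=
    (tendsto_rpow_atTop (by norm_num)).comp ((tendsto_rpow_atTop hη).comp t0)
  have h6 : ∀ᶠ a : ℕ in atTop, X₁ ≤ ((a : ℝ) ^ η) ^ (1 / 2 : ℝ) := t3.eventually_ge_atTop _
  have h7 : ∀ᶠ a : ℕ in atTop, η * Real.log a ≤ ((a : ℝ) ^ η) ^ (1 / 8 : ℝ) := by
    have e1 : ∀ᶠ x : ℝ in atTop, Real.log x ≤ x ^ (1 / 8 : ℝ) := by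
      have := (isLittleO_log_rpow_atTop (show (0:ℝ) < 1 / 8 by norm_num)).def
        (show (0:ℝ) < 1 by norm_num)
      filter_upwards [this, eventually_ge_atTop (1:ℝ)] with x hx hx1
      have hl := Real.log_nonneg hx1
      rw [Real.norm_eq_abs, abs_of_nonneg hl, Real.norm_eq_abs,
        abs_of_nonneg (Real.rpow_nonneg (by linarith) _), one_mul] at hx
      exact hx
    have e2 := ((tendsto_rpow_atTop hη).comp t0).eventually e1
    filter_upwards [e2, eventually_ge_atTop 1] with a ha ha1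
    have : (0 : ℝ) < a := by exact_mod_cast ha1
    simp only [Function.comp] at ha
    rwa [Real.log_rpow this] at ha
  obtain ⟨D₀, hD₀⟩ := eventually_atTop.1 (h2.and (h3.and (h4.and (h5.and (h6.and (h7.and
    (eventually_ge_atTop 10)))))))
  refine ⟨D₀, fun D hD => ?_⟩
  obtain ⟨g2, g3, g4, g5, g6, g7, g8⟩ := hD₀ D hD
  refine ⟨g8, g2, ?_, g4, ?_, g6, g7⟩
  · rw [div_le_iff₀ hη] at g3
    linarith
  · have : A * Real.log D ≤ |A| * Real.log D :=
      mul_le_mul_of_nonneg_right (le_abs_self A) (by linarith)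
    linarith

/-- the sum over the pairs, times the product over the small primes -/
theorem mu_bound (z : ℕ) (S : Finset (ℕ × ℕ)) (Z : ℕ × ℕ → ℝ)
    (hS : ∀ w ∈ S, 0 < w.1 ∧ 0 ≤ Z w) :
    (∑ w ∈ S, (3 * TT Z w * (∏ p ∈ (PZ z).filter (fun p => ¬ p ∣ w.1), (1 - 1 / (p : ℝ))) + 1)) *
      (∏ p ∈ PZ z, (1 - 1 / (p : ℝ))⁻¹) ≤
      3 * (∑ w ∈ S, Z w / (w.1.totient : ℝ)) + 10 * S.card * (z + 1) := by
  set W : ℝ := ∏ p ∈ PZ z, (1 - 1 / (p : ℝ))⁻¹ with hW
  have hW1 := W_le z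
  rw [← hW] at hW1
  have hfac := fun p (hp : p ∈ PZ z) => fac_bd (PZ_prime hp).1.two_le
  have hW0 : 0 ≤ W := Finset.prod_nonneg fun p hp => by linarith [(hfac p hp).2.2]
  rw [Finset.sum_mul, Finset.mul_sum]
  have h1 : ∀ w ∈ S, (3 * TT Z w * (∏ p ∈ (PZ z).filter (fun p => ¬ p ∣ w.1), (1 - 1 / (p : ℝ))) + 1) *
      W ≤ 3 * (Z w / (w.1.totient : ℝ)) + 10 * W := by
    intro w hw
    obtain ⟨hw1, hw2⟩ := hS w hw
    have hdr : (0 : ℝ) < w.1 := by exact_mod_cast hw1
    have hφ : (0 : ℝ) < (w.1.totient : ℝ) := by exact_mod_cast Nat.totient_pos.2 hw1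
    set V : ℝ := ∏ p ∈ (PZ z).filter (fun p => p ∣ w.1), (1 - 1 / (p : ℝ))⁻¹ with hV
    have e1 : (∏ p ∈ (PZ z).filter (fun p => ¬ p ∣ w.1), (1 - 1 / (p : ℝ))) * W = V := by
      rw [hW, ← Finset.prod_filter_mul_prod_filter_not (PZ z) (fun p => p ∣ w.1), ← hV]
      have : (∏ p ∈ (PZ z).filter (fun p => ¬ p ∣ w.1), (1 - 1 / (p : ℝ))) *
          ∏ p ∈ (PZ z).filter (fun p => ¬ p ∣ w.1), (1 - 1 / (p : ℝ))⁻¹ = 1 := by
        rw [← Finset.prod_mul_distrib]
        apply Finset.prod_eq_one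
        intro p hp
        exact mul_inv_cancel₀ (hfac p (mem_filter.1 hp).1).1.ne'
      calc _ = V * ((∏ p ∈ (PZ z).filter (fun p => ¬ p ∣ w.1), (1 - 1 / (p : ℝ))) *
          ∏ p ∈ (PZ z).filter (fun p => ¬ p ∣ w.1), (1 - 1 / (p : ℝ))⁻¹) := by ring
        _ = V := by rw [this, mul_one]
    have hV0 : 0 < V := Finset.prod_pos fun p hp => by
      have := (hfac p (mem_filter.1 hp).1).2.2
      linarith
    have hVW : V ≤ W := by
      rw [hV, hW]
      apply Finset.prod_le_prod_of_subset_of_one_le (filter_subset _ _)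
      · intro p hp
        have := (hfac p (mem_filter.1 hp).1).2.2
        linarith
      · intro p hp _
        exact (hfac p hp).2.2
    have hVφ : V * (w.1.totient : ℝ) ≤ w.1 := by
      have h2 : (w.1.totient : ℝ) / w.1 ≤ ∏ p ∈ (PZ z).filter (fun p => p ∣ w.1), (1 - 1 / (p : ℝ)) := by
        rw [totient_div w.1 hw1.ne']
        have hsub : (PZ z).filter (fun p => p ∣ w.1) ⊆ w.1.primeFactors := by
          intro p hp
          rw [mem_filter] at hp
          exact Nat.mem_primeFactors.2 ⟨(PZ_prime hp.1).1, hp.2, hw1.ne'⟩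
        rw [← Finset.prod_sdiff hsub]
        have h3 : ∏ p ∈ w.1.primeFactors \ (PZ z).filter (fun p => p ∣ w.1), (1 - 1 / (p : ℝ)) ≤ 1 :=
          Finset.prod_le_one
            (fun p hp => (fac_bd (Nat.prime_of_mem_primeFactors (mem_sdiff.1 hp).1).two_le).1.le)
            (fun p hp => (fac_bd (Nat.prime_of_mem_primeFactors (mem_sdiff.1 hp).1).two_le).2.1)
        have h4 : 0 ≤ ∏ p ∈ (PZ z).filter (fun p => p ∣ w.1), (1 - 1 / (p : ℝ)) :=
          Finset.prod_nonneg fun p hp => (hfac p (mem_filter.1 hp).1).1.le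
        nlinarith
      have h5 : V * ∏ p ∈ (PZ z).filter (fun p => p ∣ w.1), (1 - 1 / (p : ℝ)) = 1 := by
        rw [hV, ← Finset.prod_mul_distrib]
        apply Finset.prod_eq_one
        intro p hp
        exact inv_mul_cancel₀ (hfac p (mem_filter.1 hp).1).1.ne'
      have h6 : V * ((w.1.totient : ℝ) / w.1) ≤ 1 := by
        rw [← h5]
        exact mul_le_mul_of_nonneg_left h2 hV0.le
      have e : V * ((w.1.totient : ℝ) / w.1) = V * (w.1.totient : ℝ) / w.1 := by ring
      rw [e, div_le_one hdr] at h6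
      exact h6
    have hT : (TT Z w : ℝ) ≤ Z w / w.1 + 3 := by
      unfold TT
      push_cast
      have := Nat.floor_le (show 0 ≤ Z w / (w.1 : ℝ) by positivity)
      linarith
    have h7 : Z w / w.1 * V ≤ Z w / (w.1.totient : ℝ) := by
      rw [div_mul_eq_mul_div, div_le_div_iff₀ hdr hφ]
      nlinarith
    calc _ = 3 * TT Z w * ((∏ p ∈ (PZ z).filter (fun p => ¬ p ∣ w.1), (1 - 1 / (p : ℝ))) * W) +
          W := by ring
      _ = 3 * TT Z w * V + W := by rw [e1]
      _ ≤ 3 * (Z w / w.1 + 3) * V + W := by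
          have := mul_le_mul_of_nonneg_right hT hV0.le
          nlinarith
      _ = 3 * (Z w / w.1 * V) + 9 * V + W := by ring
      _ ≤ 3 * (Z w / (w.1.totient : ℝ)) + 9 * W + W := by linarith
      _ = _ := by ring
  refine (Finset.sum_le_sum h1).trans ?_
  rw [Finset.sum_add_distrib, Finset.sum_const, nsmul_eq_mul]
  have h8 : (S.card : ℝ) * (10 * W) ≤ 10 * S.card * (z + 1) := by
    have : (0 : ℝ) ≤ S.card := Nat.cast_nonneg _
    nlinarith
  linarith

theorem tail_core : ∃ C₀ : ℝ, 0 ≤ C₀ ∧ ∀ (m : ℕ) (A η : ℝ), 1 ≤ m → 1 ≤ A → 0 < η → η ≤ 1 →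
    ∃ D₀ : ℕ, ∀ D : ℕ, D₀ ≤ D → ∀ S : Finset (ℕ × ℕ), S.card ≤ m →
    (∀ w ∈ S, w.1 ∣ D ∧ (D : ℝ) ^ η ≤ w.1 ∧ w.2 < w.1) → ∀ Z : ℕ × ℕ → ℝ, (∀ w ∈ S, 0 ≤ Z w) →
    ∑ w ∈ S, Z w / (w.1.totient : ℝ) ≤ A * Real.log D →
    ∀ M : ℝ, 0 ≤ M → M ≤ D →
    (D.totient : ℝ) / D * (D : ℝ) ^ η * Real.exp (-Real.exp (16 * (32 * (A / η)) + C₀)) / 2 ≤
      ((HS M ((D : ℝ) ^ η) (((D : ℝ) ^ η) ^ (1 / 4 : ℝ)) D S Z).ncard : ℝ) := by
  obtain ⟨C₀, hC₀, hG⟩ := mainG (1 / 4) (by norm_num)
  refine ⟨C₀, hC₀, fun m A η hm hA hη hη1 => ?_⟩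
  have hAη : 1 ≤ A / η := by
    rw [le_div_iff₀ hη]
    linarith
  have h6η : 1 ≤ 6 / η := by
    rw [le_div_iff₀ hη]
    linarith
  obtain ⟨X₁, hG⟩ := hG (32 * (A / η)) (6 / η) (by linarith) h6η
  obtain ⟨D₀, hev⟩ := ev_tail m A η X₁ hm hη
  refine ⟨D₀, fun D hD S hSm hS Z hZ hZs M hM0 hMD => ?_⟩
  obtain ⟨k1, k2, k3, k4, k5, k6, k7⟩ := hev D hD
  have hmR : (1 : ℝ) ≤ m := by exact_mod_cast hm
  have hD0 : 0 < D := by omega
  have hDR : (10 : ℝ) ≤ D := by exact_mod_cast k1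
  have hDpos : (0 : ℝ) < D := by linarith
  set L := Real.log D with hL
  set X : ℝ := (D : ℝ) ^ η with hX
  have hX0 : 0 < X := Real.rpow_pos_of_pos hDpos _
  have hlogX : Real.log X = η * L := by rw [hX, Real.log_rpow hDpos]
  have hX1 : 1 ≤ X := Real.one_le_rpow (by linarith) hη.le
  have hXD : X ≤ D := by
    calc X ≤ (D : ℝ) ^ (1 : ℝ) := Real.rpow_le_rpow_of_exponent_le (by linarith) hη1
      _ = D := Real.rpow_one _
  -- the small primes
  obtain ⟨z, hz⟩ : ∃ z : ℕ, z = ⌊η * L / (100 * m)⌋₊ := ⟨_, rfl⟩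
  have hzle : (z : ℝ) ≤ η * L / (100 * m) := by
    rw [hz]
    exact Nat.floor_le (by positivity)
  have hzge : η * L / (200 * m) ≤ z := by
    have h1 : η * L / (100 * m) < z + 1 := by
      rw [hz]
      exact Nat.lt_floor_add_one _
    have h2 : 2 ≤ η * L / (200 * m) := by
      rw [le_div_iff₀ (by positivity)]
      linarith
    have h3 : η * L / (100 * m) = 2 * (η * L / (200 * m)) := by
      field_simp
      ring
    linarith
  have hz2R : (2 : ℝ) ≤ z := by
    have h2 : 2 ≤ η * L / (200 * m) := by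
      rw [le_div_iff₀ (by positivity)]
      linarith
    linarith
  have hz2 : 2 ≤ z := by exact_mod_cast hz2R
  have hzX : (z : ℝ) ≤ η * L / 100 := by
    refine hzle.trans ?_
    apply div_le_div_of_nonneg_left (by positivity) (by norm_num)
    linarith
  have hlogz : 800 * (m : ℝ) / η ≤ Real.log z := by
    refine k4.trans ?_
    apply Real.log_le_log _ hzge
    have h2 : 2 ≤ η * L / (200 * m) := by
      rw [le_div_iff₀ (by positivity)]
      linarith
    linarith
  have hDBh : 2 * Real.log D ≤ z * Real.log z := by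
    have h1 : η * L / (200 * m) * (800 * m / η) ≤ z * Real.log z :=
      mul_le_mul hzge hlogz (by positivity) (by linarith)
    have h2 : η * L / (200 * m) * (800 * m / η) = 4 * L := by
      field_simp
      norm_num
    have h3 : 0 ≤ L := by linarith
    linarith
  have hhalf := DB_half z D hD0 hz2 hDBh
  -- the modulus Q
  set Q := QZ z with hQ
  have hQpos : 0 < Q := QZ_pos z
  have hQR : (0 : ℝ) < Q := by exact_mod_cast hQpos
  have hQle : (Q : ℝ) ≤ X ^ (1 / 4 : ℝ) := by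
    have h1 : Q ≤ 4 ^ z := by
      refine le_trans (le_of_eq ?_) (primorial_le_four_pow z)
      rw [hQ]
      unfold QZ primorial
      apply Finset.prod_congr _ (fun _ _ => rfl)
      ext p
      rw [mem_PZ, mem_filter, mem_range]
      constructor
      · rintro ⟨a1, a2⟩
        exact ⟨by omega, a1⟩
      · rintro ⟨a1, a2⟩
        exact ⟨a2, by omega⟩
    have h2 : (Q : ℝ) ≤ (4 : ℝ) ^ z := by exact_mod_cast h1
    have h3 : (4 : ℝ) ^ z = Real.exp (z * Real.log 4) := by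
      rw [← Real.rpow_natCast, Real.rpow_def_of_pos (by norm_num)]
      ring_nf
    have h4 : X ^ (1 / 4 : ℝ) = Real.exp (η * L * (1 / 4)) := by
      rw [Real.rpow_def_of_pos hX0, hlogX]
    rw [h4]
    rw [h3] at h2
    refine h2.trans (Real.exp_le_exp.2 ?_)
    have h5 : Real.log 4 = 2 * Real.log 2 := by
      rw [show (4 : ℝ) = 2 ^ 2 by norm_num, Real.log_pow]; push_cast; ring
    have h6 := Real.log_two_lt_d9
    have h7 := Real.log_two_gt_d9
    have h8 : Real.log 4 ≤ 2 := by linarith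
    have h9 : 0 ≤ Real.log 4 := by linarith
    have h10 : 0 ≤ η * L := by positivity
    nlinarith
  have hQ1 : (1 : ℝ) ≤ Q := by exact_mod_cast hQpos
  set X' : ℝ := X / Q with hX'
  have hX'0 : 0 < X' := by positivity
  have hX'X : X' ≤ X := by
    rw [hX', div_le_iff₀ hQR]
    nlinarith
  have hX'h : X ^ (1 / 2 : ℝ) ≤ X' := by
    rw [hX', le_div_iff₀ hQR]
    calc X ^ (1 / 2 : ℝ) * Q ≤ X ^ (1 / 2 : ℝ) * X ^ (1 / 4 : ℝ) :=
          mul_le_mul_of_nonneg_left hQle (by positivity)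
      _ = X ^ (3 / 4 : ℝ) := by rw [← Real.rpow_add hX0]; norm_num
      _ ≤ X ^ (1 : ℝ) := Real.rpow_le_rpow_of_exponent_le hX1 (by norm_num)
      _ = X := Real.rpow_one X
  have hlogX' : η * L / 2 ≤ Real.log X' := by
    have h1 := Real.log_le_log (by positivity) hX'h
    rw [Real.log_rpow hX0, hlogX] at h1
    linarith
  have hDX' : ∀ s : ℝ, 0 ≤ s → s ≤ 3 → (D : ℝ) ^ s ≤ X' ^ (6 / η) := by
    intro s hs hs3
    calc (D : ℝ) ^ s ≤ (D : ℝ) ^ (3 : ℝ) := Real.rpow_le_rpow_of_exponent_le (by linarith) hs3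
      _ = (X ^ (1 / 2 : ℝ)) ^ (6 / η) := by
          rw [hX, ← Real.rpow_mul (by positivity), ← Real.rpow_mul hDpos.le]
          congr 1
          field_simp
          norm_num
      _ ≤ X' ^ (6 / η) := Real.rpow_le_rpow (by positivity) hX'h (by positivity)
  -- the average
  have hSd : ∀ w ∈ S, 0 < w.1 ∧ w.1 ∣ D ∧ X ≤ w.1 ∧ w.2 < w.1 ∧ 0 ≤ Z w := by
    intro w hw
    obtain ⟨a1, a2, a3⟩ := hS w hw
    exact ⟨by omega, a1, a2, a3, hZ w hw⟩
  set U : ℕ → Finset ℤ := fun r => UU z S (tt M X) (TT Z) r with hU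
  set μ : ℝ := ∑ w ∈ S, (3 * TT Z w * (∏ p ∈ (PZ z).filter (fun p => ¬ p ∣ w.1), (1 - 1 / (p : ℝ))) + 1)
    with hμ
  have hμ0 : 0 ≤ μ := by
    apply Finset.sum_nonneg
    intro w _
    have : 0 ≤ ∏ p ∈ (PZ z).filter (fun p => ¬ p ∣ w.1), (1 - 1 / (p : ℝ)) :=
      Finset.prod_nonneg fun p hp => (fac_bd (PZ_prime (mem_filter.1 hp).1).1.two_le).1.le
    positivity
  have hsum := sum_UU z D S (fun w hw => (hS w hw).1) (tt M X) (TT Z)
  have hmark := markov (RR z D) (fun r => ((U r).card : ℝ)) μ hμ0 (fun r _ => Nat.cast_nonneg _) hsum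
  set G := (RR z D).filter (fun r => ((U r).card : ℝ) ≤ 2 * μ) with hGd
  set W : ℝ := ∏ p ∈ PZ z, (1 - 1 / (p : ℝ))⁻¹ with hW
  have hμW : μ * W ≤ 4 * (A * L) := by
    have h1 := mu_bound z S Z (fun w hw => ⟨(hSd w hw).1, hZ w hw⟩)
    rw [← hμ, ← hW] at h1
    have h2 : 10 * (S.card : ℝ) * (z + 1) ≤ A * L := by
      have e1 : (S.card : ℝ) ≤ m := by exact_mod_cast hSm
      have e2 : (z : ℝ) + 1 ≤ 2 * z := by linarith
      have e3 : 10 * (S.card : ℝ) * (z + 1) ≤ 10 * m * (2 * z) := by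
        apply mul_le_mul _ e2 (by positivity) (by positivity)
        linarith
      have e4 : 10 * (m : ℝ) * (2 * z) ≤ 10 * m * (2 * (η * L / (100 * m))) := by
        apply mul_le_mul_of_nonneg_left _ (by positivity)
        linarith
      have e5 : 10 * (m : ℝ) * (2 * (η * L / (100 * m))) = η * L / 5 := by
        field_simp
        norm_num
      have e6 : η * L ≤ 1 * L := mul_le_mul_of_nonneg_right hη1 (by linarith)
      have e7 : 1 * L ≤ A * L := mul_le_mul_of_nonneg_right hA (by linarith)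
      linarith
    linarith
  have hQtot : ((Q : ℝ) / (Q.totient : ℝ)) = W := by
    have h1 := QZ_totient z
    rw [← hQ] at h1
    rw [hW, Finset.prod_inv_distrib, ← h1, inv_div]
  -- one class
  set E : ℝ := Real.exp (-Real.exp (16 * (32 * (A / η)) + C₀)) with hE
  have hE0 : 0 < E := Real.exp_pos _
  have hDBpos := DB_pos z D
  have hDBD : DB z D ≤ D := Nat.le_of_dvd hD0 (DB_dvd z D)
  have hone : ∀ r ∈ G, ((DB z D).totient : ℝ) / DB z D * X' * E ≤
      (({a ∈ HS M X (X ^ (1 / 4 : ℝ)) D S Z | a ≡ r [ZMOD Q]} : Set ℤ).ncard : ℝ) := by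
    intro r hr
    rw [hGd, mem_filter] at hr
    -- the shift
    obtain ⟨s, hsD, hs⟩ : ∃ s : ℕ, s < DB z D ∧ (DB z D : ℤ) ∣ (r : ℤ) + Q * s := by
      obtain ⟨u, v, huv⟩ := Nat.isCoprime_iff_coprime.2 (QZ_coprime_DB z D)
      have hDBz : (0 : ℤ) < DB z D := by exact_mod_cast hDBpos
      refine ⟨((-(r : ℤ) * u) % (DB z D : ℤ)).toNat, ?_, ?_⟩
      · have h1 := Int.emod_lt_of_pos (-(r : ℤ) * u) hDBz
        have h2 := Int.emod_nonneg (-(r : ℤ) * u) hDBz.ne'
        omega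
      · have h2 := Int.emod_nonneg (-(r : ℤ) * u) hDBz.ne'
        rw [Int.toNat_of_nonneg h2]
        have h3 := Int.emod_add_mul_ediv (-(r : ℤ) * u) (DB z D : ℤ)
        have h4 : (-(r : ℤ) * u) % (DB z D : ℤ) = -(r : ℤ) * u - (DB z D : ℤ) * ((-(r : ℤ) * u) / (DB z D : ℤ)) := by
          linarith
        rw [h4]
        refine ⟨r * v - Q * ((-(r : ℤ) * u) / (DB z D : ℤ)), ?_⟩
        rw [hQ]
        linear_combination (-(r : ℤ)) * huv
    have h1 := one_class z D hD0 S Z M X (X ^ (1 / 4 : ℝ)) r hX0 hSd hr.1 (by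
      have e1 : (z : ℝ) ≤ η * L := by
        have : 0 ≤ η * L := by positivity
        linarith
      refine e1.trans (k7.trans ?_)
      exact Real.rpow_le_rpow_of_exponent_le hX1 (by norm_num)) (X' ^ (1 / 4 : ℝ))
      (Real.rpow_le_rpow hX'0.le hX'X (by norm_num)) s hs
    have h2 := hG X' (k6.trans hX'h) {v // v ∈ U r} (fun _ => (Q : ℤ))
      (fun v => (r : ℤ) + Q * s + v.1) (DB z D) hDBpos
      (by
        have e1 : (DB z D : ℝ) ≤ (D : ℝ) ^ (1 : ℝ) := by
          rw [Real.rpow_one]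
          exact_mod_cast hDBD
        exact e1.trans (hDX' 1 (by norm_num) (by norm_num)))
      (fun _ => by exact_mod_cast hQpos.ne')
      (fun _ => by
        rw [Int.cast_natCast, abs_of_nonneg hQR.le]
        have e1 : (Q : ℝ) ≤ (D : ℝ) ^ (1 : ℝ) := by
          rw [Real.rpow_one]
          refine hQle.trans (le_trans ?_ hXD)
          calc X ^ (1 / 4 : ℝ) ≤ X ^ (1 : ℝ) :=
                Real.rpow_le_rpow_of_exponent_le hX1 (by norm_num)
            _ = X := Real.rpow_one X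
        exact e1.trans (hDX' 1 (by norm_num) (by norm_num)))
      (fun v => by
        obtain ⟨v, hv⟩ := v
        rw [hU] at hv
        simp only [UU, mem_biUnion, mem_filter, mem_image] at hv
        obtain ⟨w, hw, ⟨t, ht, rfl⟩, -⟩ := hv
        obtain ⟨b1, b2, b3, b4, b5⟩ := hSd w hw
        have e1 := diff_bound (M := M) b1 hX0.le b3 b5 b4 ht
        have hwD : (w.1 : ℝ) ≤ D := by exact_mod_cast Nat.le_of_dvd hD0 b2
        have hZD : Z w ≤ (D : ℝ) ^ 2 := by
          have c1 : Z w / (w.1.totient : ℝ) ≤ ∑ w ∈ S, Z w / (w.1.totient : ℝ) :=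
            Finset.single_le_sum (f := fun w => Z w / (w.1.totient : ℝ))
              (fun w hw => div_nonneg (hZ w hw) (Nat.cast_nonneg _)) hw
          have c2 := (c1.trans hZs).trans k5
          have c3 : (0 : ℝ) < (w.1.totient : ℝ) := by exact_mod_cast Nat.totient_pos.2 b1
          rw [div_le_iff₀ c3] at c2
          have c4 : (w.1.totient : ℝ) ≤ D := by
            have : w.1.totient ≤ w.1 := Nat.totient_le _
            have : (w.1.totient : ℝ) ≤ w.1 := by exact_mod_cast this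
            linarith
          nlinarith
        have hrQ : (r : ℝ) ≤ D := by
          have c1 := hr.1
          rw [RR, mem_filter, mem_range] at c1
          have c2 : (r : ℝ) ≤ Q := by exact_mod_cast c1.1.le
          have c3 : (Q : ℝ) ≤ X := hQle.trans (by
            calc X ^ (1 / 4 : ℝ) ≤ X ^ (1 : ℝ) :=
                  Real.rpow_le_rpow_of_exponent_le hX1 (by norm_num)
              _ = X := Real.rpow_one X)
          linarith
        have hQD : (Q : ℝ) ≤ D := by
          have c3 : (Q : ℝ) ≤ X := hQle.trans (by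
            calc X ^ (1 / 4 : ℝ) ≤ X ^ (1 : ℝ) :=
                  Real.rpow_le_rpow_of_exponent_le hX1 (by norm_num)
              _ = X := Real.rpow_one X)
          linarith
        have hsR : (s : ℝ) ≤ D := by
          have : s ≤ D := hsD.le.trans hDBD
          exact_mod_cast this
        have e2 : (D : ℝ) ^ (3 : ℝ) = (D : ℝ) ^ 3 := by
          rw [show (3 : ℝ) = ((3 : ℕ) : ℝ) by norm_num, Real.rpow_natCast]
        refine le_trans ?_ (hDX' 3 (by norm_num) le_rfl)
        rw [e2]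
        have e3 : (((r : ℤ) + Q * s + ((w.2 : ℤ) + w.1 * t) : ℤ) : ℝ) =
            (r : ℝ) + Q * s + ((((w.2 : ℤ) + w.1 * t : ℤ)) : ℝ) := by push_cast; ring
        rw [e3]
        have e4 : |(r : ℝ) + Q * s + ((((w.2 : ℤ) + w.1 * t : ℤ)) : ℝ)| ≤
            |(r : ℝ) + Q * s| + |((((w.2 : ℤ) + w.1 * t : ℤ)) : ℝ)| := abs_add_le _ _
        have e5 : |(r : ℝ) + Q * s| ≤ D + D * D := by
          rw [abs_of_nonneg (by positivity)]
          have : (Q : ℝ) * s ≤ D * D := mul_le_mul hQD hsR (Nat.cast_nonneg _) hDpos.le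
          linarith
        have e6 : |M| = M := abs_of_nonneg hM0
        rw [e6] at e1
        nlinarith)
      (fun i j hij h => hij (Subtype.ext (by
        have e1 : (Q : ℤ) * j.1 = Q * i.1 := by linarith
        exact (mul_left_cancel₀ (by exact_mod_cast hQpos.ne') e1).symm)))
      (by
        rw [Finset.sum_const, Finset.card_univ, Fintype.card_coe, nsmul_eq_mul, Int.natAbs_natCast,
          hQtot]
        have e1 : ((U r).card : ℝ) * W ≤ 8 * (A * L) := by
          have hW0 : 0 ≤ W := Finset.prod_nonneg fun p hp => by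
            linarith [(fac_bd (PZ_prime hp).1.two_le).2.2]
          have := mul_le_mul_of_nonneg_right hr.2 hW0
          nlinarith
        refine e1.trans ?_
        have e2 : 32 * (A / η) * (1 / 2) * (η * L / 2) = 8 * (A * L) := by
          field_simp
          norm_num
        rw [← e2]
        apply mul_le_mul _ hlogX' (by positivity) (by positivity)
        exact mul_le_mul_of_nonneg_left hhalf (by positivity)) ((M - r) / Q - s)
    exact h2.trans (by exact_mod_cast h1)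
  -- the sum over the classes
  set Hf : Finset ℤ := (HS_finite M X (X ^ (1 / 4 : ℝ)) D S Z).toFinset with hHf
  have hcard : ((HS M X (X ^ (1 / 4 : ℝ)) D S Z).ncard : ℝ) = (Hf.card : ℝ) := by
    rw [hHf, Set.ncard_eq_toFinset_card _ (HS_finite _ _ _ _ _ _)]
  have hsumr : (∑ r ∈ G, ((Hf.filter (fun a => a ≡ r [ZMOD Q])).card : ℝ)) ≤ (Hf.card : ℝ) := by
    have h1 : ∑ r ∈ G, (Hf.filter (fun a => a ≡ r [ZMOD Q])).card =
        (G.biUnion (fun r => Hf.filter (fun a => a ≡ (r : ℤ) [ZMOD Q]))).card := by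
      rw [Finset.card_biUnion]
      intro r hr r' hr' hrr'
      rw [Function.onFun, Finset.disjoint_left]
      intro a ha ha'
      rw [mem_filter] at ha ha'
      apply hrr'
      have e1 : (r : ℤ) ≡ r' [ZMOD Q] := ha.2.symm.trans ha'.2
      have e2 : r ≡ r' [MOD Q] := Int.natCast_modEq_iff.1 e1
      rw [Finset.mem_coe, hGd, mem_filter, RR, mem_filter, mem_range] at hr hr'
      exact Nat.ModEq.eq_of_lt_of_lt e2 hr.1.1 hr'.1.1
    have h2 : (G.biUnion (fun r => Hf.filter (fun a => a ≡ (r : ℤ) [ZMOD Q]))).card ≤ Hf.card := by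
      apply Finset.card_le_card
      intro a ha
      rw [mem_biUnion] at ha
      obtain ⟨r, -, ha⟩ := ha
      exact (mem_filter.1 ha).1
    rw [← h1] at h2
    exact_mod_cast h2
  rw [hcard]
  refine le_trans ?_ hsumr
  have hone' : ∀ r ∈ G, ((DB z D).totient : ℝ) / DB z D * X' * E ≤
      ((Hf.filter (fun a => a ≡ r [ZMOD Q])).card : ℝ) := by
    intro r hr
    refine (hone r hr).trans (le_of_eq ?_)
    rw [← Set.ncard_coe_finset]
    congr 1
    congr 1
    ext a
    simp only [hHf, coe_filter, Set.Finite.mem_toFinset, Set.mem_ofPred_eq]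
  have h3 : (G.card : ℝ) * (((DB z D).totient : ℝ) / DB z D * X' * E) ≤
      ∑ r ∈ G, ((Hf.filter (fun a => a ≡ r [ZMOD Q])).card : ℝ) := by
    rw [← nsmul_eq_mul, ← Finset.sum_const]
    exact Finset.sum_le_sum hone'
  refine le_trans ?_ h3
  have h4 : 0 ≤ ((DB z D).totient : ℝ) / DB z D * X' * E := by positivity
  have h5 : ((RR z D).card : ℝ) / 2 ≤ G.card := by linarith
  refine le_trans (le_of_eq ?_) (mul_le_mul_of_nonneg_right h5 h4)
  rw [← ratio z D hD0, hX', ← hQ]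
  field_simp

end Pool.Agent.J6H61.SM
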