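import Pool.Agent.H373R2.T7.Crt
import Pool.Agent.H256R2.SC.G3

set_option autoImplicit false
set_option linter.unusedVariables false

/-! # Averages over the residue classes modulo the small primes -/

namespace Pool.Agent.J6H61.SM

open Finset Pool.Agent.H256R2.SC.G3

open scoped Classical

/-- the primes up to `z` -/
noncomputable def PZ (z : ℕ) : Finset ℕ := (Finset.Icc 1 z).filter Nat.Prime

/-- their product -/
noncomputable def QZ (z : ℕ) : ℕ := ∏ p ∈ PZ z, p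

/-- the residues modulo `QZ z` which are not divisible by the primes `p ∣ D`, `p ≤ z` -/
noncomputable def RR (z D : ℕ) : Finset ℕ :=
  (range (QZ z)).filter (fun r => ∀ p ∈ PZ z, p ∣ D → ¬ p ∣ r)

theorem PZ_prime {z p : ℕ} (hp : p ∈ PZ z) : p.Prime ∧ p ≤ z := by
  rw [PZ, mem_filter, mem_Icc] at hp
  exact ⟨hp.2, hp.1.2⟩

theorem mem_PZ {z p : ℕ} : p ∈ PZ z ↔ p.Prime ∧ p ≤ z := by
  refine ⟨PZ_prime, fun h => ?_⟩
  rw [PZ, mem_filter, mem_Icc]
  exact ⟨⟨h.1.one_lt.le, h.2⟩, h.1⟩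

theorem QZ_pos (z : ℕ) : 0 < QZ z := Finset.prod_pos fun p hp => (PZ_prime hp).1.pos

theorem dvd_QZ {z p : ℕ} (hp : p ∈ PZ z) : p ∣ QZ z := Finset.dvd_prod_of_mem _ hp

/-- the number of allowed residues modulo `p` -/
noncomputable def np (D p : ℕ) : ℕ := ((range p).filter (fun a => p ∣ D → ¬ p ∣ a)).card

/-- the number of allowed residues modulo `p` which do not hit `v` -/
noncomputable def cp (D d : ℕ) (v : ℤ) (p : ℕ) : ℕ :=
  ((range p).filter (fun a => (p ∣ D → ¬ p ∣ a) ∧ (¬ p ∣ d → ¬ (p : ℤ) ∣ (a : ℤ) + v))).card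

theorem RR_card (z D : ℕ) : (RR z D).card = ∏ p ∈ PZ z, np D p := by
  have h := Pool.Agent.H373R2.T7.crt_card (fun p a => p ∣ D → ¬ p ∣ a) (PZ z)
    (fun p hp => (PZ_prime hp).1)
  unfold np
  rw [← h]
  unfold RR QZ
  congr 1
  apply Finset.filter_congr
  intro r _
  constructor
  · intro h p hp hpD hpr
    exact h p hp hpD ((Nat.dvd_mod_iff dvd_rfl).1 hpr)
  · intro h p hp hpD hpr
    exact h p hp hpD ((Nat.dvd_mod_iff dvd_rfl).2 hpr)

/-- the residues in `RR z D` for which `r + v` is not divisible by the primes `p ≤ z`, `p ∤ d` -/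
noncomputable def GG (z D d : ℕ) (v : ℤ) : Finset ℕ :=
  (RR z D).filter (fun r => ∀ p ∈ PZ z, ¬ p ∣ d → ¬ (p : ℤ) ∣ (r : ℤ) + v)

theorem GG_card (z D d : ℕ) (v : ℤ) : (GG z D d v).card = ∏ p ∈ PZ z, cp D d v p := by
  have h := Pool.Agent.H373R2.T7.crt_card
    (fun p a => (p ∣ D → ¬ p ∣ a) ∧ (¬ p ∣ d → ¬ (p : ℤ) ∣ (a : ℤ) + v)) (PZ z)
    (fun p hp => (PZ_prime hp).1)
  unfold cp
  rw [← h]
  unfold GG RR QZ
  rw [Finset.filter_filter]
  congr 1
  apply Finset.filter_congr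
  intro r _
  have e : ∀ p : ℕ, ((p : ℤ) ∣ (r : ℤ) + v ↔ (p : ℤ) ∣ ((r % p : ℕ) : ℤ) + v) := by
    intro p
    have h1 : (r : ℤ) + v = (((r % p : ℕ) : ℤ) + v) + p * ((r / p : ℕ) : ℤ) := by
      have : (r : ℤ) = ((r % p : ℕ) : ℤ) + p * ((r / p : ℕ) : ℤ) := by
        exact_mod_cast (Nat.mod_add_div r p).symm
      linarith
    rw [h1]
    exact dvd_add_left (Dvd.intro _ rfl)
  constructor
  · rintro ⟨h1, h2⟩ p hp
    refine ⟨fun hpD hpr => h1 p hp hpD ((Nat.dvd_mod_iff dvd_rfl).1 hpr), fun hpd hpv => ?_⟩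
    exact h2 p hp hpd ((e p).2 hpv)
  · intro h
    exact ⟨fun p hp hpD hpr => (h p hp).1 hpD ((Nat.dvd_mod_iff dvd_rfl).2 hpr),
      fun p hp hpd hpv => (h p hp).2 hpd ((e p).1 hpv)⟩

theorem np_eq {D p : ℕ} (hp : p.Prime) : (np D p : ℝ) = if p ∣ D then (p : ℝ) - 1 else p := by
  unfold np
  split_ifs with h
  · have : (range p).filter (fun a => p ∣ D → ¬ p ∣ a) = (range p).erase 0 := by
      ext a
      rw [mem_filter, mem_erase, mem_range]
      constructor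
      · rintro ⟨h1, h2⟩
        refine ⟨?_, h1⟩
        rintro rfl
        exact h2 h (dvd_zero p)
      · rintro ⟨h1, h2⟩
        exact ⟨h2, fun _ h3 => by
          have := Nat.le_of_dvd (Nat.pos_of_ne_zero h1) h3
          omega⟩
    rw [this, card_erase_of_mem (mem_range.2 hp.pos), card_range, Nat.cast_sub hp.one_lt.le,
      Nat.cast_one]
  · have : (range p).filter (fun a => p ∣ D → ¬ p ∣ a) = range p := by
      apply Finset.filter_true_of_mem
      intro a _ h1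
      exact absurd h1 h
    rw [this, card_range]

theorem cp_le_np (D d : ℕ) (v : ℤ) (p : ℕ) : cp D d v p ≤ np D p := by
  unfold cp np
  apply Finset.card_le_card
  intro a ha
  rw [mem_filter] at ha ⊢
  exact ⟨ha.1, ha.2.1⟩

/-- the residue which is hit -/
theorem hit (p : ℕ) (hp : p.Prime) (v : ℤ) : ∃ a : ℕ, a < p ∧ (p : ℤ) ∣ (a : ℤ) + v := by
  refine ⟨((-v) % (p : ℤ)).toNat, ?_, ?_⟩
  · have h1 := Int.emod_lt_of_pos (-v) (by exact_mod_cast hp.pos : (0 : ℤ) < p)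
    have h2 := Int.emod_nonneg (-v) (by exact_mod_cast hp.ne_zero : (p : ℤ) ≠ 0)
    omega
  · have h2 := Int.emod_nonneg (-v) (by exact_mod_cast hp.ne_zero : (p : ℤ) ≠ 0)
    rw [Int.toNat_of_nonneg h2]
    have h3 := Int.emod_add_mul_ediv (-v) (p : ℤ)
    refine ⟨-((-v) / (p : ℤ)), ?_⟩
    linarith

theorem cp_le {D d p : ℕ} (hp : p.Prime) (v : ℤ) (hdD : d ∣ D) :
    (cp D d v p : ℝ) ≤ (np D p : ℝ) * (if p ∣ d then 1 else (1 - 1 / (p : ℝ))) *
      (if (p ∣ D ∧ ¬ p ∣ d ∧ (p : ℤ) ∣ v) then (1 + 1 / ((p : ℝ) - 1)) else 1) := by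
  have hp1 : (2 : ℝ) ≤ p := by exact_mod_cast hp.two_le
  by_cases hpd : p ∣ d
  · have : ¬ (p ∣ D ∧ ¬ p ∣ d ∧ (p : ℤ) ∣ v) := fun h => h.2.1 hpd
    rw [if_pos hpd, if_neg this, mul_one, mul_one]
    exact_mod_cast cp_le_np D d v p
  · rw [if_neg hpd]
    obtain ⟨a, ha, hav⟩ := hit p hp v
    by_cases hpD : p ∣ D
    · rw [np_eq hp, if_pos hpD]
      by_cases hpv : (p : ℤ) ∣ v
      · rw [if_pos ⟨hpD, hpd, hpv⟩]
        have h1 : (cp D d v p : ℝ) ≤ (np D p : ℝ) := by exact_mod_cast cp_le_np D d v p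
        rw [np_eq hp, if_pos hpD] at h1
        refine h1.trans (le_of_eq ?_)
        have : (p : ℝ) - 1 ≠ 0 := by linarith
        have : (p : ℝ) ≠ 0 := by linarith
        field_simp
        ring
      · have : ¬ (p ∣ D ∧ ¬ p ∣ d ∧ (p : ℤ) ∣ v) := fun h => hpv h.2.2
        rw [if_neg this, mul_one]
        have ha0 : a ≠ 0 := by
          rintro rfl
          apply hpv
          simpa using hav
        have h1 : cp D d v p ≤ p - 2 := by
          unfold cp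
          have hsub : (range p).filter (fun a => (p ∣ D → ¬ p ∣ a) ∧
              (¬ p ∣ d → ¬ (p : ℤ) ∣ (a : ℤ) + v)) ⊆ ((range p).erase 0).erase a := by
            intro b hb
            rw [mem_filter] at hb
            rw [mem_erase, mem_erase]
            refine ⟨?_, ?_, hb.1⟩
            · rintro rfl
              exact hb.2.2 hpd hav
            · rintro rfl
              exact hb.2.1 hpD (dvd_zero p)
          refine (Finset.card_le_card hsub).trans (le_of_eq ?_)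
          rw [card_erase_of_mem (mem_erase.2 ⟨ha0, mem_range.2 ha⟩),
            card_erase_of_mem (mem_range.2 hp.pos), card_range]
          omega
        have h2 : (cp D d v p : ℝ) ≤ (p : ℝ) - 2 := by
          have : ((p - 2 : ℕ) : ℝ) = (p : ℝ) - 2 := by
            rw [Nat.cast_sub hp.two_le]
            norm_num
          rw [← this]
          exact_mod_cast h1
        refine h2.trans ?_
        have e : ((p : ℝ) - 1) * (1 - 1 / (p : ℝ)) = (p : ℝ) - 2 + 1 / p := by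
          field_simp
          ring
        rw [e]
        have : 0 ≤ 1 / (p : ℝ) := by positivity
        linarith
    · have : ¬ (p ∣ D ∧ ¬ p ∣ d ∧ (p : ℤ) ∣ v) := fun h => hpD h.1
      rw [if_neg this, mul_one, np_eq hp, if_neg hpD]
      have h1 : cp D d v p ≤ p - 1 := by
        unfold cp
        have hsub : (range p).filter (fun a => (p ∣ D → ¬ p ∣ a) ∧
            (¬ p ∣ d → ¬ (p : ℤ) ∣ (a : ℤ) + v)) ⊆ (range p).erase a := by
          intro b hb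
          rw [mem_filter] at hb
          rw [mem_erase]
          refine ⟨?_, hb.1⟩
          rintro rfl
          exact hb.2.2 hpd hav
        refine (Finset.card_le_card hsub).trans (le_of_eq ?_)
        rw [card_erase_of_mem (mem_range.2 ha), card_range]
      have h2 : (cp D d v p : ℝ) ≤ (p : ℝ) - 1 := by
        have : ((p - 1 : ℕ) : ℝ) = (p : ℝ) - 1 := by
          rw [Nat.cast_sub hp.one_lt.le]
          norm_num
        rw [← this]
        exact_mod_cast h1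
      refine h2.trans (le_of_eq ?_)
      field_simp

/-- the primes `p ≤ z` with `p ∣ D`, `p ∤ d` -/
noncomputable def EE (z D d : ℕ) : Finset ℕ := (PZ z).filter (fun p => p ∣ D ∧ ¬ p ∣ d)

theorem GG_le {D d : ℕ} (z : ℕ) (v : ℤ) (hdD : d ∣ D) :
    ((GG z D d v).card : ℝ) ≤ ((RR z D).card : ℝ) *
      (∏ p ∈ (PZ z).filter (fun p => ¬ p ∣ d), (1 - 1 / (p : ℝ))) *
      ∏ p ∈ EE z D d, (if (p : ℤ) ∣ v then (1 + 1 / ((p : ℝ) - 1)) else 1) := by
  rw [GG_card, RR_card]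
  push_cast
  rw [Finset.prod_filter, EE, Finset.prod_filter, ← Finset.prod_mul_distrib,
    ← Finset.prod_mul_distrib]
  apply Finset.prod_le_prod
  · intro p _
    exact Nat.cast_nonneg _
  · intro p hp
    refine (cp_le (PZ_prime hp).1 v hdD).trans (le_of_eq ?_)
    congr 1
    · congr 1
      by_cases h : p ∣ d
      · rw [if_pos h, if_neg (not_not.2 h)]
      · rw [if_neg h, if_pos h]
    · by_cases h : p ∣ D ∧ ¬ p ∣ d
      · rw [if_pos h]
        by_cases h2 : (p : ℤ) ∣ v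
        · rw [if_pos h2, if_pos ⟨h.1, h.2, h2⟩]
        · rw [if_neg h2, if_neg (fun h3 => h2 h3.2.2)]
      · rw [if_neg h, if_neg (fun h3 => h ⟨h3.1, h3.2.1⟩)]

/-- count in an arithmetic progression of values -/
theorem prog_count (r d : ℕ) (hr : 0 < r) (hd : Nat.Coprime d r) (c t₁ : ℤ) (T : ℕ) :
    (((Finset.Ico t₁ (t₁ + T)).filter (fun t => (r : ℤ) ∣ c + d * t)).card : ℝ) ≤ (T : ℝ) / r + 1 := by
  obtain ⟨v, hv⟩ := crt_class 1 r d (Nat.coprime_one_left r) hd c 0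
  have e : (Finset.Ico t₁ (t₁ + T)).filter (fun t => (r : ℤ) ∣ c + d * t) =
      (Finset.Ico t₁ (t₁ + T)).filter (fun t => (r : ℤ) ∣ t - v) := by
    apply Finset.filter_congr
    intro t _
    have h1 := hv t
    rw [one_mul] at h1
    rw [← h1]
    constructor
    · intro h
      exact ⟨by simp, h⟩
    · intro h
      exact h.2
  rw [e]
  have h2 := (abs_le.1 (class_count t₁ v T r hr)).2
  linarith

theorem prod_if (E : Finset ℕ) (hE : ∀ p ∈ E, p.Prime) (v : ℤ) :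
    ∏ p ∈ E, (if (p : ℤ) ∣ v then (1 + 1 / ((p : ℝ) - 1)) else 1) =
      ∑ F ∈ E.powerset, (∏ p ∈ F, 1 / ((p : ℝ) - 1)) *
        (if ((∏ p ∈ F, p : ℕ) : ℤ) ∣ v then (1 : ℝ) else 0) := by
  have h1 : ∀ p ∈ E, (if (p : ℤ) ∣ v then (1 + 1 / ((p : ℝ) - 1)) else 1) =
      1 + (if (p : ℤ) ∣ v then 1 / ((p : ℝ) - 1) else 0) := by
    intro p _
    split_ifs <;> ring
  rw [Finset.prod_congr rfl h1, Finset.prod_one_add]
  apply Finset.sum_congr rfl
  intro F hF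
  rw [mem_powerset] at hF
  by_cases h : ((∏ p ∈ F, p : ℕ) : ℤ) ∣ v
  · rw [if_pos h, mul_one]
    apply Finset.prod_congr rfl
    intro p hp
    rw [if_pos]
    exact (Int.natCast_dvd_natCast.2 (Finset.dvd_prod_of_mem _ hp)).trans h
  · rw [if_neg h, mul_zero]
    have : ∃ p ∈ F, ¬ (p : ℤ) ∣ v := by
      by_contra hcon
      push Not at hcon
      apply h
      rw [Int.natCast_dvd]
      apply Finset.prod_primes_dvd
      · intro p hp
        exact (hE p (hF hp)).prime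
      · intro p hp
        exact Int.natCast_dvd.1 (hcon p hp)
    obtain ⟨p, hp, hpv⟩ := this
    apply Finset.prod_eq_zero hp
    rw [if_neg hpv]

theorem tele (z : ℕ) : ∑ n ∈ Finset.Ico 2 (z + 2), (1 : ℝ) / (n * ((n : ℝ) - 1)) ≤ 1 - 1 / (z + 1) := by
  induction z with
  | zero => simp
  | succ z ih =>
    rw [Finset.sum_Ico_succ_top (by omega)]
    have e : (1 : ℝ) / (((z + 2 : ℕ) : ℝ) * (((z + 2 : ℕ) : ℝ) - 1)) =
        1 / ((z : ℝ) + 1) - 1 / ((z : ℝ) + 2) := by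
      push_cast
      have h1 : (z : ℝ) + 1 ≠ 0 := by positivity
      have h2 : (z : ℝ) + 2 ≠ 0 := by positivity
      have h3 : (z : ℝ) + 2 - 1 = z + 1 := by ring
      rw [h3]
      field_simp
      ring
    rw [show z + 1 + 1 = z + 2 by ring, e]
    have e2 : ((z + 1 : ℕ) : ℝ) + 1 = (z : ℝ) + 2 := by push_cast; ring
    rw [e2]
    linarith

theorem prod_conv (E : Finset ℕ) (hE : ∀ p ∈ E, 2 ≤ p) :
    ∏ p ∈ E, (1 + 1 / ((p : ℝ) * ((p : ℝ) - 1))) ≤ 3 := by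
  obtain ⟨z, hz⟩ : ∃ z : ℕ, E ⊆ Finset.Ico 2 (z + 2) := by
    refine ⟨E.sup id, fun p hp => ?_⟩
    rw [mem_Ico]
    have : p ≤ E.sup id := Finset.le_sup (f := id) hp
    exact ⟨hE p hp, by omega⟩
  have h1 : ∏ p ∈ E, (1 + 1 / ((p : ℝ) * ((p : ℝ) - 1))) ≤
      Real.exp (∑ p ∈ E, 1 / ((p : ℝ) * ((p : ℝ) - 1))) := by
    rw [Real.exp_sum]
    apply Finset.prod_le_prod
    · intro p hp
      have : (2 : ℝ) ≤ p := by exact_mod_cast hE p hp
      have : 0 < (p : ℝ) - 1 := by linarith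
      positivity
    · intro p _
      have := Real.add_one_le_exp (1 / ((p : ℝ) * ((p : ℝ) - 1)))
      linarith
  have h2 : ∑ p ∈ E, 1 / ((p : ℝ) * ((p : ℝ) - 1)) ≤ 1 := by
    have h3 : ∑ p ∈ E, 1 / ((p : ℝ) * ((p : ℝ) - 1)) ≤
        ∑ n ∈ Finset.Ico 2 (z + 2), (1 : ℝ) / (n * ((n : ℝ) - 1)) := by
      apply Finset.sum_le_sum_of_subset_of_nonneg hz
      intro p hp _
      rw [mem_Ico] at hp
      have : (2 : ℝ) ≤ p := by exact_mod_cast hp.1
      have : 0 < (p : ℝ) - 1 := by linarith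
      positivity
    have h4 := tele z
    have : (0 : ℝ) ≤ 1 / (z + 1) := by positivity
    linarith
  have h5 := Real.exp_one_lt_d9
  calc _ ≤ Real.exp (∑ p ∈ E, 1 / ((p : ℝ) * ((p : ℝ) - 1))) := h1
    _ ≤ Real.exp 1 := Real.exp_le_exp.2 h2
    _ ≤ 3 := by linarith

/-- the sum over a progression of values -/
theorem sum_prog (E : Finset ℕ) (hE : ∀ p ∈ E, p.Prime) (d : ℕ) (hd : ∀ p ∈ E, ¬ p ∣ d)
    (c t₁ : ℤ) (T : ℕ) :
    (∑ t ∈ Finset.Ico t₁ (t₁ + T), ∏ p ∈ E, (if (p : ℤ) ∣ c + d * t then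
      (1 + 1 / ((p : ℝ) - 1)) else 1)) ≤ 3 * T + ∏ p ∈ E, (1 + 1 / ((p : ℝ) - 1)) := by
  have hE1 : ∀ p ∈ E, (2 : ℝ) ≤ p := fun p hp => by exact_mod_cast (hE p hp).two_le
  have e1 : ∀ t ∈ Finset.Ico t₁ (t₁ + T), ∏ p ∈ E, (if (p : ℤ) ∣ c + d * t then
      (1 + 1 / ((p : ℝ) - 1)) else 1) = ∑ F ∈ E.powerset, (∏ p ∈ F, 1 / ((p : ℝ) - 1)) *
        (if ((∏ p ∈ F, p : ℕ) : ℤ) ∣ c + d * t then (1 : ℝ) else 0) :=
    fun t _ => prod_if E hE _
  rw [Finset.sum_congr rfl e1, Finset.sum_comm]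
  have e2 : ∀ F ∈ E.powerset, (∑ t ∈ Finset.Ico t₁ (t₁ + T), (∏ p ∈ F, 1 / ((p : ℝ) - 1)) *
        (if ((∏ p ∈ F, p : ℕ) : ℤ) ∣ c + d * t then (1 : ℝ) else 0)) ≤
      T * ∏ p ∈ F, (1 / ((p : ℝ) * ((p : ℝ) - 1))) + ∏ p ∈ F, 1 / ((p : ℝ) - 1) := by
    intro F hF
    rw [mem_powerset] at hF
    rw [← Finset.mul_sum]
    have h1 : (∑ t ∈ Finset.Ico t₁ (t₁ + T), (if ((∏ p ∈ F, p : ℕ) : ℤ) ∣ c + d * t then
        (1 : ℝ) else 0)) = (((Finset.Ico t₁ (t₁ + T)).filter (fun t =>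
          ((∏ p ∈ F, p : ℕ) : ℤ) ∣ c + d * t)).card : ℝ) := by
      rw [Finset.card_filter]
      push_cast
      rfl
    rw [h1]
    have hpos : 0 < ∏ p ∈ F, p := Finset.prod_pos fun p hp => (hE p (hF hp)).pos
    have hcop : Nat.Coprime d (∏ p ∈ F, p) := by
      apply Nat.Coprime.prod_right
      intro p hp
      exact Nat.Coprime.symm ((Nat.Prime.coprime_iff_not_dvd (hE p (hF hp))).2 (hd p (hF hp)))
    have h2 := prog_count (∏ p ∈ F, p) d hpos hcop c t₁ T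
    have h3 : 0 ≤ ∏ p ∈ F, 1 / ((p : ℝ) - 1) := by
      apply Finset.prod_nonneg
      intro p hp
      have := hE1 p (hF hp)
      have : 0 < (p : ℝ) - 1 := by linarith
      positivity
    refine (mul_le_mul_of_nonneg_left h2 h3).trans (le_of_eq ?_)
    have h4 : ∏ p ∈ F, (1 / ((p : ℝ) * ((p : ℝ) - 1))) =
        (∏ p ∈ F, 1 / ((p : ℝ) - 1)) * (1 / ((∏ p ∈ F, p : ℕ) : ℝ)) := by
      push_cast
      rw [one_div (∏ p ∈ F, (p : ℝ)), ← Finset.prod_inv_distrib, ← Finset.prod_mul_distrib]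
      apply Finset.prod_congr rfl
      intro p hp
      rw [one_div, one_div, mul_inv, mul_comm]
    rw [h4]
    ring
  refine (Finset.sum_le_sum e2).trans ?_
  rw [Finset.sum_add_distrib, ← Finset.mul_sum, ← Finset.prod_one_add, ← Finset.prod_one_add]
  have h5 := prod_conv E (fun p hp => (hE p hp).two_le)
  have h6 : (0 : ℝ) ≤ T := Nat.cast_nonneg _
  nlinarith

/-- the average for one progression -/
theorem one_prog {D d : ℕ} (z : ℕ) (hdD : d ∣ D) (c t₁ : ℤ) (T : ℕ) :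
    (∑ t ∈ Finset.Ico t₁ (t₁ + T), ((GG z D d (c + d * t)).card : ℝ)) ≤ ((RR z D).card : ℝ) *
      (3 * T * (∏ p ∈ (PZ z).filter (fun p => ¬ p ∣ d), (1 - 1 / (p : ℝ))) + 1) := by
  have hE : ∀ p ∈ EE z D d, p.Prime := fun p hp => (PZ_prime (mem_filter.1 hp).1).1
  have hd : ∀ p ∈ EE z D d, ¬ p ∣ d := fun p hp => (mem_filter.1 hp).2.2
  set W : ℝ := ∏ p ∈ (PZ z).filter (fun p => ¬ p ∣ d), (1 - 1 / (p : ℝ)) with hW
  have hfac : ∀ p ∈ PZ z, 0 < 1 - 1 / (p : ℝ) ∧ 1 - 1 / (p : ℝ) ≤ 1 := by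
    intro p hp
    have h2 : (2 : ℝ) ≤ p := by exact_mod_cast (PZ_prime hp).1.two_le
    have h3 : 1 / (p : ℝ) ≤ 1 / 2 := one_div_le_one_div_of_le (by norm_num) h2
    have h4 : 0 < 1 / (p : ℝ) := by positivity
    constructor <;> linarith
  have hW0 : 0 ≤ W := Finset.prod_nonneg fun p hp => (hfac p (mem_filter.1 hp).1).1.le
  have h1 : (∑ t ∈ Finset.Ico t₁ (t₁ + T), ((GG z D d (c + d * t)).card : ℝ)) ≤
      ∑ t ∈ Finset.Ico t₁ (t₁ + T), ((RR z D).card : ℝ) * W *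
        ∏ p ∈ EE z D d, (if (p : ℤ) ∣ c + d * t then (1 + 1 / ((p : ℝ) - 1)) else 1) :=
    Finset.sum_le_sum fun t _ => GG_le z _ hdD
  rw [← Finset.mul_sum] at h1
  refine h1.trans ?_
  have h2 := sum_prog (EE z D d) hE d hd c t₁ T
  have h3 : W * ∏ p ∈ EE z D d, (1 + 1 / ((p : ℝ) - 1)) ≤ 1 := by
    have hsub : EE z D d ⊆ (PZ z).filter (fun p => ¬ p ∣ d) := by
      intro p hp
      rw [EE, mem_filter] at hp
      rw [mem_filter]
      exact ⟨hp.1, hp.2.2⟩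
    rw [hW, ← Finset.prod_sdiff hsub, mul_assoc, ← Finset.prod_mul_distrib]
    have h4 : ∏ p ∈ EE z D d, ((1 - 1 / (p : ℝ)) * (1 + 1 / ((p : ℝ) - 1))) = 1 := by
      apply Finset.prod_eq_one
      intro p hp
      have h5 : (2 : ℝ) ≤ p := by exact_mod_cast (hE p hp).two_le
      have h6 : (p : ℝ) - 1 ≠ 0 := by linarith
      have h7 : (p : ℝ) ≠ 0 := by linarith
      field_simp
      ring
    rw [h4, mul_one]
    apply Finset.prod_le_one
    · intro p hp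
      exact (hfac p (mem_filter.1 (mem_sdiff.1 hp).1).1).1.le
    · intro p hp
      exact (hfac p (mem_filter.1 (mem_sdiff.1 hp).1).1).2
  have h0 : (0 : ℝ) ≤ ((RR z D).card : ℝ) := Nat.cast_nonneg _
  calc ((RR z D).card : ℝ) * W * _ ≤ ((RR z D).card : ℝ) * W *
        (3 * T + ∏ p ∈ EE z D d, (1 + 1 / ((p : ℝ) - 1))) :=
        mul_le_mul_of_nonneg_left h2 (by positivity)
    _ = ((RR z D).card : ℝ) * (3 * T * W + W * ∏ p ∈ EE z D d, (1 + 1 / ((p : ℝ) - 1))) := by ring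
    _ ≤ _ := by
        apply mul_le_mul_of_nonneg_left _ h0
        linarith

/-- the values `c + d t` which are not divisible, with `r`, by a prime `p ≤ z`, `p ∤ d` -/
noncomputable def UU (z : ℕ) (S : Finset (ℕ × ℕ)) (t₁ : ℕ × ℕ → ℤ) (T : ℕ × ℕ → ℕ) (r : ℕ) :
    Finset ℤ :=
  S.biUnion (fun w => ((Finset.Ico (t₁ w) (t₁ w + T w)).image (fun t => (w.2 : ℤ) + w.1 * t)).filter
    (fun v => ∀ p ∈ PZ z, ¬ p ∣ w.1 → ¬ (p : ℤ) ∣ (r : ℤ) + v))

/-- **the average number of the survivors** -/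
theorem sum_UU (z D : ℕ) (S : Finset (ℕ × ℕ)) (hS : ∀ w ∈ S, w.1 ∣ D) (t₁ : ℕ × ℕ → ℤ)
    (T : ℕ × ℕ → ℕ) :
    (∑ r ∈ RR z D, ((UU z S t₁ T r).card : ℝ)) ≤ ((RR z D).card : ℝ) *
      ∑ w ∈ S, (3 * T w * (∏ p ∈ (PZ z).filter (fun p => ¬ p ∣ w.1), (1 - 1 / (p : ℝ))) + 1) := by
  have h1 : ∀ r ∈ RR z D, ((UU z S t₁ T r).card : ℝ) ≤ ∑ w ∈ S, ∑ t ∈ Finset.Ico (t₁ w) (t₁ w + T w),
      (if (∀ p ∈ PZ z, ¬ p ∣ w.1 → ¬ (p : ℤ) ∣ (r : ℤ) + ((w.2 : ℤ) + w.1 * t)) then (1 : ℝ)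
        else 0) := by
    intro r _
    have h2 : (UU z S t₁ T r).card ≤ ∑ w ∈ S, (((Finset.Ico (t₁ w) (t₁ w + T w)).image
        (fun t => (w.2 : ℤ) + w.1 * t)).filter
          (fun v => ∀ p ∈ PZ z, ¬ p ∣ w.1 → ¬ (p : ℤ) ∣ (r : ℤ) + v)).card := by
      unfold UU
      exact Finset.card_biUnion_le
    have h3 : ∀ w ∈ S, ((((Finset.Ico (t₁ w) (t₁ w + T w)).image
        (fun t => (w.2 : ℤ) + w.1 * t)).filter
          (fun v => ∀ p ∈ PZ z, ¬ p ∣ w.1 → ¬ (p : ℤ) ∣ (r : ℤ) + v)).card : ℝ) ≤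
        ∑ t ∈ Finset.Ico (t₁ w) (t₁ w + T w),
          (if (∀ p ∈ PZ z, ¬ p ∣ w.1 → ¬ (p : ℤ) ∣ (r : ℤ) + ((w.2 : ℤ) + w.1 * t)) then (1 : ℝ)
            else 0) := by
      intro w _
      rw [Finset.filter_image]
      have h4 : (∑ t ∈ Finset.Ico (t₁ w) (t₁ w + T w),
          (if (∀ p ∈ PZ z, ¬ p ∣ w.1 → ¬ (p : ℤ) ∣ (r : ℤ) + ((w.2 : ℤ) + w.1 * t)) then (1 : ℝ)
            else 0)) = (((Finset.Ico (t₁ w) (t₁ w + T w)).filter (fun t =>
              ∀ p ∈ PZ z, ¬ p ∣ w.1 → ¬ (p : ℤ) ∣ (r : ℤ) + ((w.2 : ℤ) + w.1 * t))).card : ℝ) := by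
        rw [Finset.card_filter]
        push_cast
        rfl
      rw [h4]
      exact_mod_cast Finset.card_image_le
    calc ((UU z S t₁ T r).card : ℝ) ≤ ((∑ w ∈ S, (((Finset.Ico (t₁ w) (t₁ w + T w)).image
        (fun t => (w.2 : ℤ) + w.1 * t)).filter
          (fun v => ∀ p ∈ PZ z, ¬ p ∣ w.1 → ¬ (p : ℤ) ∣ (r : ℤ) + v)).card : ℕ) : ℝ) :=
          Nat.cast_le.2 h2
      _ = _ := by rw [Nat.cast_sum]
      _ ≤ _ := Finset.sum_le_sum h3
  refine (Finset.sum_le_sum h1).trans ?_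
  rw [Finset.sum_comm, Finset.mul_sum]
  apply Finset.sum_le_sum
  intro w hw
  rw [Finset.sum_comm]
  refine le_trans (le_of_eq ?_) (one_prog z (hS w hw) (w.2 : ℤ) (t₁ w) (T w))
  apply Finset.sum_congr rfl
  intro t _
  rw [GG, Finset.card_filter]
  push_cast
  rfl

end Pool.Agent.J6H61.SM
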