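import Pool.Agent.J6H61.SM.Cov5
import Pool.Agent.J6H61.SM.Fin

set_option autoImplicit false
set_option linter.unusedVariables false

/-! # Record size for several moduli at the same time -/

namespace Pool.Agent.J6H61.SM

open Finset Filter Pool.Agent.H256R2.SC.G3

open scoped Classical

/-- the sum over the pairs -/
theorem mu_bound2 (z : ℕ) (S : Finset (ℕ × ℕ)) (Z : ℕ × ℕ → ℝ)
    (hS : ∀ w ∈ S, 0 < w.1 ∧ 0 ≤ Z w) :
    (∑ w ∈ S, (3 * TT Z w * (∏ p ∈ (PZ z).filter (fun p => ¬ p ∣ w.1), (1 - 1 / (p : ℝ))) + 1)) ≤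
      3 * (∑ w ∈ S, Z w / (w.1.totient : ℝ)) * (∏ p ∈ PZ z, (1 - 1 / (p : ℝ))) + 10 * S.card := by
  set PI : ℝ := ∏ p ∈ PZ z, (1 - 1 / (p : ℝ)) with hPI
  have hfac := fun p (hp : p ∈ PZ z) => fac_bd (PZ_prime hp).1.two_le
  have hPI0 : 0 < PI := Finset.prod_pos fun p hp => (hfac p hp).1
  have h1 : ∀ w ∈ S, (3 * TT Z w * (∏ p ∈ (PZ z).filter (fun p => ¬ p ∣ w.1), (1 - 1 / (p : ℝ))) + 1) ≤
      3 * (Z w / (w.1.totient : ℝ)) * PI + 10 := by
    intro w hw
    obtain ⟨hw1, hw2⟩ := hS w hw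
    have hdr : (0 : ℝ) < w.1 := by exact_mod_cast hw1
    have hφ : (0 : ℝ) < (w.1.totient : ℝ) := by exact_mod_cast Nat.totient_pos.2 hw1
    set B : ℝ := ∏ p ∈ (PZ z).filter (fun p => ¬ p ∣ w.1), (1 - 1 / (p : ℝ)) with hB
    set V : ℝ := ∏ p ∈ (PZ z).filter (fun p => p ∣ w.1), (1 - 1 / (p : ℝ)) with hV
    have hB0 : 0 ≤ B := Finset.prod_nonneg fun p hp => (hfac p (mem_filter.1 hp).1).1.le
    have hB1 : B ≤ 1 := Finset.prod_le_one (fun p hp => (hfac p (mem_filter.1 hp).1).1.le)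
      (fun p hp => (hfac p (mem_filter.1 hp).1).2.1)
    have hV0 : 0 < V := Finset.prod_pos fun p hp => (hfac p (mem_filter.1 hp).1).1
    have e1 : V * B = PI := by
      rw [hV, hB, hPI]
      exact Finset.prod_filter_mul_prod_filter_not _ _ _
    have h2 : (w.1.totient : ℝ) / w.1 ≤ V := by
      rw [totient_div w.1 hw1.ne']
      have hsub : (PZ z).filter (fun p => p ∣ w.1) ⊆ w.1.primeFactors := by
        intro p hp
        rw [mem_filter] at hp
        exact Nat.mem_primeFactors.2 ⟨(PZ_prime hp.1).1, hp.2, hw1.ne'⟩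
      rw [← Finset.prod_sdiff hsub]
      have h3 : ∏ p ∈ w.1.primeFactors \ (PZ z).filter (fun p => p ∣ w.1), (1 - 1 / (p : ℝ)) ≤ 1 :=
        Finset.prod_le_one
          (fun p hp => (fac_bd (Nat.prime_of_mem_primeFactors (mem_sdiff.1 hp).1).two_le).1.le)
          (fun p hp => (fac_bd (Nat.prime_of_mem_primeFactors (mem_sdiff.1 hp).1).two_le).2.1)
      rw [← hV]
      nlinarith
    have h3 : (w.1.totient : ℝ) ≤ V * w.1 := by
      rwa [div_le_iff₀ hdr] at h2
    have h4 : Z w / w.1 * B ≤ Z w / (w.1.totient : ℝ) * PI := by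
      rw [div_mul_eq_mul_div, div_mul_eq_mul_div, div_le_div_iff₀ hdr hφ, ← e1]
      have h5 : (w.1.totient : ℝ) * (Z w * B) ≤ (V * w.1) * (Z w * B) :=
        mul_le_mul_of_nonneg_right h3 (by positivity)
      calc Z w * B * (w.1.totient : ℝ) = (w.1.totient : ℝ) * (Z w * B) := by ring
        _ ≤ (V * w.1) * (Z w * B) := h5
        _ = Z w * (V * B) * w.1 := by ring
    have hT : (TT Z w : ℝ) ≤ Z w / w.1 + 3 := by
      unfold TT
      push_cast
      have := Nat.floor_le (show 0 ≤ Z w / (w.1 : ℝ) by positivity)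
      linarith
    have h6 : (TT Z w : ℝ) * B ≤ (Z w / w.1 + 3) * B := mul_le_mul_of_nonneg_right hT hB0
    nlinarith
  refine (Finset.sum_le_sum h1).trans (le_of_eq ?_)
  rw [Finset.sum_add_distrib, Finset.sum_const, nsmul_eq_mul, ← Finset.sum_mul, ← Finset.mul_sum]
  ring

/-- the integers which are congruent to small numbers -/
noncomputable def EX (M X : ℝ) (S : Finset (ℕ × ℕ)) (Y : ℕ) : Finset ℤ :=
  (S ×ˢ Finset.Icc 1 Y).biUnion (fun q => (Finset.Icc ⌊M⌋ ⌈M + X⌉).filter (fun a : ℤ =>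
    M < a ∧ (a : ℝ) ≤ M + X ∧ (q.2 : ℤ) ≡ a + q.1.2 [ZMOD q.1.1]))

theorem EX_card (M X : ℝ) (m : ℕ) (S : Finset (ℕ × ℕ)) (hSm : S.card ≤ m) (hX0 : 0 < X)
    (hS : ∀ w ∈ S, 0 < w.1 ∧ X ≤ w.1) (Y : ℕ) : (EX M X S Y).card ≤ m * Y := by
  have h1 : (EX M X S Y).card ≤ ∑ q ∈ S ×ˢ Finset.Icc 1 Y, 1 := by
    refine Finset.card_biUnion_le.trans (Finset.sum_le_sum ?_)
    intro q hq
    rw [mem_product] at hq
    obtain ⟨b1, b2⟩ := hS q.1 hq.1
    rw [Finset.card_le_one]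
    intro a ha b hb
    rw [mem_filter] at ha hb
    obtain ⟨-, a1, a2, a3⟩ := ha
    obtain ⟨-, c1, c2, c3⟩ := hb
    have h2 : (a : ℤ) + q.1.2 ≡ b + q.1.2 [ZMOD q.1.1] := a3.symm.trans c3
    have h3 : (q.1.1 : ℤ) ∣ b - a := by
      have := Int.modEq_iff_dvd.1 h2
      have e : b + (q.1.2 : ℤ) - (a + q.1.2) = b - a := by ring
      rwa [e] at this
    have h4 : b - a = 0 := by
      apply Int.eq_zero_of_abs_lt_dvd h3
      have h5 : |((b - a : ℤ) : ℝ)| < (q.1.1 : ℝ) := by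
        push_cast
        rw [abs_lt]
        constructor <;> linarith
      have h6 : ((|b - a| : ℤ) : ℝ) < ((q.1.1 : ℤ) : ℝ) := by
        rw [Int.cast_abs]
        push_cast at h5 ⊢
        exact h5
      exact_mod_cast h6
    omega
  rw [Finset.sum_const, smul_eq_mul, mul_one, card_product, Nat.card_Icc, Nat.add_sub_cancel] at h1
  exact h1.trans (Nat.mul_le_mul_right _ hSm)

/-- facts for large `D` -/
theorem ev_rec (m : ℕ) (η c c₁ X₀ : ℝ) (hη : 0 < η) (hc₁ : 0 < c₁) : ∃ D₀ : ℕ, ∀ D : ℕ, D₀ ≤ D →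
    10 ≤ D ∧ 1 ≤ Real.log D ∧ 400 ≤ η * Real.log D ∧
    c * (η * Real.log D * Real.log (Real.log D)) ≤ D ∧ X₀ ≤ (D : ℝ) ^ η ∧
    Real.log (Real.log D) ≤ 2 * Real.log (η * Real.log D) ∧
    20 * (m : ℝ) ≤ c₁ * (η * Real.log D) ∧
    2 * (2 * Real.log D + (c₁ * (η * Real.log D)) ^ 2 * (2 * (3 * Real.log D))) ≤
      (η * Real.log D) ^ 4 ∧
    40 / η ≤ Real.log (η * Real.log D) ∧
    (m + 1 : ℝ) ≤ ((D : ℝ) ^ η) ^ (1 / 10 : ℝ) := by
  have t0 : Tendsto (fun a : ℕ => (a : ℝ)) atTop atTop := tendsto_natCast_atTop_atTop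
  have t1 := Real.tendsto_log_atTop.comp t0
  have t2 := Real.tendsto_log_atTop.comp t1
  have h2 : ∀ᶠ a : ℕ in atTop, 1 ≤ Real.log a := t1.eventually_ge_atTop _
  have h3 : ∀ᶠ a : ℕ in atTop, 400 / η ≤ Real.log a := t1.eventually_ge_atTop _
  have h4 : ∀ᶠ a : ℕ in atTop, |c * η| * Real.log a ^ 2 ≤ a := by
    have e1 : ∀ᶠ x : ℝ in atTop, |c * η| * Real.log x ^ 2 ≤ x := by
      have := (isLittleO_log_rpow_rpow_atTop (2 : ℝ) (show (0:ℝ) < 1 by norm_num)).def
        (show (0:ℝ) < 1 / (|c * η| + 1) by positivity)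
      filter_upwards [this, eventually_ge_atTop (1:ℝ)] with x hx hx1
      have hl := Real.log_nonneg hx1
      have c1 : ‖Real.log x ^ (2 : ℝ)‖ = Real.log x ^ 2 := by
        rw [show (2 : ℝ) = ((2 : ℕ) : ℝ) by norm_num, Real.rpow_natCast, Real.norm_eq_abs,
          abs_of_nonneg (by positivity)]
      have c2 : ‖x ^ (1 : ℝ)‖ = x := by
        rw [Real.rpow_one, Real.norm_eq_abs, abs_of_nonneg (by linarith)]
      rw [c1, c2, one_div, ← div_eq_inv_mul, le_div_iff₀ (by positivity)] at hx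
      nlinarith
    exact t0.eventually e1
  have h5 : ∀ᶠ a : ℕ in atTop, X₀ ≤ (a : ℝ) ^ η :=
    ((tendsto_rpow_atTop hη).comp t0).eventually_ge_atTop _
  have h6 : ∀ᶠ a : ℕ in atTop, -(2 * Real.log η) ≤ Real.log (Real.log a) :=
    t2.eventually_ge_atTop _
  have h7 : ∀ᶠ a : ℕ in atTop, 20 * (m : ℝ) / (c₁ * η) ≤ Real.log a := t1.eventually_ge_atTop _
  have h8 : ∀ᶠ a : ℕ in atTop, (4 + 12 * (c₁ * η) ^ 2) / η ^ 4 ≤ Real.log a :=
    t1.eventually_ge_atTop _
  have h9 : ∀ᶠ a : ℕ in atTop, 40 / η ≤ Real.log (η * Real.log a) := by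
    apply Tendsto.eventually_ge_atTop
    exact Real.tendsto_log_atTop.comp (Tendsto.const_mul_atTop hη t1)
  have h10 : ∀ᶠ a : ℕ in atTop, (m + 1 : ℝ) ≤ ((a : ℝ) ^ η) ^ (1 / 10 : ℝ) :=
    ((tendsto_rpow_atTop (by norm_num : (0:ℝ) < 1 / 10)).comp
      ((tendsto_rpow_atTop hη).comp t0)).eventually_ge_atTop _
  obtain ⟨D₀, hD₀⟩ := eventually_atTop.1 (h2.and (h3.and (h4.and (h5.and (h6.and (h7.and (h8.and
    (h9.and (h10.and (eventually_ge_atTop 10))))))))))
  refine ⟨D₀, fun D hD => ?_⟩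
  obtain ⟨g2, g3, g4, g5, g6, g7, g8, g9, g10, g11⟩ := hD₀ D hD
  set L := Real.log D with hL
  have hL0 : 0 < L := by linarith
  have hLL0 : 0 ≤ Real.log L := Real.log_nonneg g2
  have hLL1 : Real.log L ≤ L := by
    have := Real.log_le_sub_one_of_pos hL0
    linarith
  refine ⟨g11, g2, ?_, ?_, g5, ?_, ?_, ?_, g9, g10⟩
  · rw [div_le_iff₀ hη] at g3
    linarith
  · calc c * (η * L * Real.log L) = (c * η) * (L * Real.log L) := by ring
      _ ≤ |c * η| * (L * Real.log L) :=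
          mul_le_mul_of_nonneg_right (le_abs_self _) (by positivity)
      _ ≤ |c * η| * L ^ 2 := by
          apply mul_le_mul_of_nonneg_left _ (abs_nonneg _)
          nlinarith
      _ ≤ D := g4
  · rw [Real.log_mul hη.ne' hL0.ne']
    linarith
  · rw [div_le_iff₀ (by positivity)] at g7
    linarith
  · rw [div_le_iff₀ (by positivity)] at g8
    have e1 : (4 + 12 * (c₁ * η) ^ 2) * L ^ 3 ≤ L * η ^ 4 * L ^ 3 :=
      mul_le_mul_of_nonneg_right g8 (by positivity)
    have e2 : L ≤ L ^ 3 := by nlinarith [sq_nonneg (L - 1), sq_nonneg L]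
    calc _ = 4 * L + 12 * (c₁ * η) ^ 2 * L ^ 3 := by ring
      _ ≤ 4 * L ^ 3 + 12 * (c₁ * η) ^ 2 * L ^ 3 := by linarith
      _ = (4 + 12 * (c₁ * η) ^ 2) * L ^ 3 := by ring
      _ ≤ L * η ^ 4 * L ^ 3 := e1
      _ = (η * L) ^ 4 := by ring

theorem RR_nonempty (z D : ℕ) : (RR z D).Nonempty := by
  rw [← Finset.card_pos, RR_card]
  apply Finset.prod_pos
  intro p hp
  have hpp := (PZ_prime hp).1
  have h1 : (0 : ℝ) < np D p := by
    rw [np_eq hpp]
    have : (2 : ℝ) ≤ p := by exact_mod_cast hpp.two_le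
    split_ifs <;> linarith
  exact_mod_cast h1

theorem rec_core : ∃ c : ℝ, 0 < c ∧ ∀ (m : ℕ) (η : ℝ), 1 ≤ m → 0 < η → η ≤ 1 →
    ∃ D₀ : ℕ, ∀ D : ℕ, D₀ ≤ D → ∀ S : Finset (ℕ × ℕ), S.card ≤ m →
    (∀ w ∈ S, w.1 ∣ D ∧ (D : ℝ) ^ η ≤ w.1 ∧ w.2 < w.1) → ∀ Z : ℕ × ℕ → ℝ, (∀ w ∈ S, 0 ≤ Z w) →
    ∑ w ∈ S, Z w / (w.1.totient : ℝ) ≤ c * (η * Real.log D * Real.log (Real.log D)) →
    ∀ M : ℝ, 0 ≤ M → M ≤ D → (NS M ((D : ℝ) ^ η) D S Z).Nonempty := by
  obtain ⟨c₁, hc₁, X₀, hcov⟩ := covering5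
  obtain ⟨C, hC0, hC⟩ := mertens_prod
  set c : ℝ := c₁ * Real.exp (-C) / 24 with hc
  have hc0 : 0 < c := by rw [hc]; positivity
  refine ⟨c, hc0, fun m η hm hη hη1 => ?_⟩
  obtain ⟨D₀, hev⟩ := ev_rec m η c c₁ X₀ hη hc₁
  refine ⟨D₀, fun D hD S hSm hS Z hZ hZs M hM0 hMD => ?_⟩
  obtain ⟨k1, k2, k3, k4, k5, k6, k7, k8, k9, k10⟩ := hev D hD
  have hmR : (1 : ℝ) ≤ m := by exact_mod_cast hm
  have hD0 : 0 < D := by omega
  have hDR : (10 : ℝ) ≤ D := by exact_mod_cast k1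
  have hDpos : (0 : ℝ) < D := by linarith
  set X : ℝ := (D : ℝ) ^ η with hX
  have hX0 : 0 < X := Real.rpow_pos_of_pos hDpos _
  have hlogX : Real.log X = η * Real.log D := by rw [hX, Real.log_rpow hDpos]
  have hX1 : 1 ≤ X := Real.one_le_rpow (by linarith) hη.le
  have hXD : X ≤ D := by
    calc X ≤ (D : ℝ) ^ (1 : ℝ) := Real.rpow_le_rpow_of_exponent_le (by linarith) hη1
      _ = D := Real.rpow_one _
  set l : ℝ := η * Real.log D with hl
  have hlpos : 0 < l := by linarith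
  obtain ⟨s1, s2, s3, s4⟩ := sizes l k3
  obtain ⟨z, hz⟩ : ∃ z : ℕ, z = ⌊l / 10⌋₊ := ⟨_, rfl⟩
  rw [← hz] at s1 s2
  have hzle : (z : ℝ) ≤ l / 10 := by rw [hz]; exact Nat.floor_le (by linarith)
  have hzge : l / 20 ≤ z := by
    have : l / 10 < z + 1 := by rw [hz]; exact Nat.lt_floor_add_one _
    linarith
  have hz2 : 2 ≤ z := by omega
  have hlogz : 20 / η ≤ Real.log z := by
    have : 40 / η / 2 = 20 / η := by ring
    linarith
  have hDBh : 2 * Real.log D ≤ z * Real.log z := by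
    have h1 : l / 20 * (20 / η) ≤ z * Real.log z :=
      mul_le_mul hzge hlogz (by positivity) (Nat.cast_nonneg _)
    have h2 : l / 20 * (20 / η) = Real.log D := by
      rw [hl]
      field_simp
    -- a little more room
    have h3 : l / 20 * (40 / η) ≤ z * (2 * Real.log z) := by
      have : 40 / η ≤ 2 * Real.log z := by
        have : 40 / η = 2 * (20 / η) := by ring
        linarith
      exact mul_le_mul hzge this (by positivity) (Nat.cast_nonneg _)
    have h4 : l / 11 * (40 / η) / 2 ≤ z * Real.log z := by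
      have e1 : l / 11 ≤ z := by
        have : l / 10 < z + 1 := by rw [hz]; exact Nat.lt_floor_add_one _
        have : (1 : ℝ) ≤ l / 110 := by linarith
        linarith
      have e2 : l / 11 * (20 / η) ≤ z * Real.log z :=
        mul_le_mul e1 hlogz (by positivity) (Nat.cast_nonneg _)
      calc l / 11 * (40 / η) / 2 = l / 11 * (20 / η) := by ring
        _ ≤ _ := e2
    have h5 : l / 11 * (40 / η) / 2 = 20 / 11 * Real.log D := by
      rw [hl]
      field_simp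
      norm_num
    -- log z is in fact larger
    have h6 : Real.log l / 2 ≤ Real.log z := s2
    have h7 : 20 / η ≤ Real.log l / 2 := by
      have : 40 / η / 2 = 20 / η := by ring
      linarith
    have h8 : 11 / 10 * (20 / η) ≤ Real.log z ∨ True := Or.inr trivial
    -- use `z ≥ l / 10 - 1` and `log z ≥ log l / 2` again
    have h9 : l * (39 / 400) ≤ z := by
      have : l / 10 < z + 1 := by rw [hz]; exact Nat.lt_floor_add_one _
      have : (1 : ℝ) ≤ l / 400 := by linarith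
      linarith
    have h10 : Real.log (l / 11) ≤ Real.log z := Real.log_le_log (by positivity) (by
      have : l / 11 ≤ l * (39 / 400) := by linarith
      linarith)
    have h11 : Real.log (l / 11) = Real.log l - Real.log 11 :=
      Real.log_div hlpos.ne' (by norm_num)
    have h12 : Real.log 11 ≤ 3 := by
      rw [Real.log_le_iff_le_exp (by norm_num)]
      have := Real.exp_one_gt_d9
      have e : Real.exp 3 = Real.exp 1 ^ 3 := by rw [← Real.exp_nat_mul]; norm_num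
      rw [e]
      calc (11 : ℝ) ≤ 2.7 ^ 3 := by norm_num
        _ ≤ Real.exp 1 ^ 3 := pow_le_pow_left₀ (by norm_num) (by linarith) 3
    have h13 : 37 / η ≤ Real.log z := by
      have : 3 ≤ 3 / η := by rw [le_div_iff₀ hη]; linarith
      have e : 40 / η - 3 / η = 37 / η := by ring
      linarith
    have h14 : l * (39 / 400) * (37 / η) ≤ z * Real.log z :=
      mul_le_mul h9 h13 (by positivity) (Nat.cast_nonneg _)
    have h15 : l * (39 / 400) * (37 / η) = 1443 / 400 * Real.log D := by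
      rw [hl]
      field_simp
      norm_num
    linarith
  have hhalf := DB_half z D hD0 hz2 hDBh
  have hDBpos := DB_pos z D
  have hDBR : (0 : ℝ) < DB z D := by exact_mod_cast hDBpos
  -- the modulus `Q`
  set Q := QZ z with hQ
  have hQpos : 0 < Q := QZ_pos z
  have hQR : (0 : ℝ) < Q := by exact_mod_cast hQpos
  have hQle : (Q : ℝ) ≤ X ^ (7 / 50 : ℝ) := by
    have h1 : Q ≤ 4 ^ z := by
      refine le_trans (le_of_eq ?_) (primorial_le_four_pow z)
      rw [hQ]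
      unfold QZ primorial
      apply Finset.prod_congr _ (fun _ _ => rfl)
      ext p
      rw [mem_PZ, mem_filter, mem_range]
      constructor
      · rintro ⟨a1, a2⟩
        exact ⟨by omega, a1⟩
      · rintro ⟨a1, a2⟩
        exact ⟨a2, by omega⟩
    have h2 : (Q : ℝ) ≤ (4 : ℝ) ^ z := by exact_mod_cast h1
    have h3 : (4 : ℝ) ^ z = Real.exp (z * Real.log 4) := by
      rw [← Real.rpow_natCast, Real.rpow_def_of_pos (by norm_num)]
      ring_nf
    have h4 : X ^ (7 / 50 : ℝ) = Real.exp (l * (7 / 50)) := by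
      rw [Real.rpow_def_of_pos hX0, hlogX]
    rw [h4]
    rw [h3] at h2
    refine h2.trans (Real.exp_le_exp.2 ?_)
    have h5 : Real.log 4 = 2 * Real.log 2 := by
      rw [show (4 : ℝ) = 2 ^ 2 by norm_num, Real.log_pow]; push_cast; ring
    have h6 := Real.log_two_lt_d9
    have h7 := Real.log_two_gt_d9
    have h8 : Real.log 4 ≤ 7 / 5 := by linarith
    have h9 : 0 ≤ Real.log 4 := by linarith
    nlinarith
  -- the average
  have hSd : ∀ w ∈ S, 0 < w.1 ∧ w.1 ∣ D ∧ X ≤ w.1 ∧ w.2 < w.1 ∧ 0 ≤ Z w := by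
    intro w hw
    obtain ⟨a1, a2, a3⟩ := hS w hw
    exact ⟨by omega, a1, a2, a3, hZ w hw⟩
  set μ : ℝ := ∑ w ∈ S, (3 * TT Z w * (∏ p ∈ (PZ z).filter (fun p => ¬ p ∣ w.1), (1 - 1 / (p : ℝ))) + 1)
    with hμ
  have hsum := sum_UU z D S (fun w hw => (hS w hw).1) (tt M X) (TT Z)
  obtain ⟨r, hr, hrU⟩ : ∃ r ∈ RR z D, ((UU z S (tt M X) (TT Z) r).card : ℝ) ≤ μ := by
    apply Finset.exists_le_of_sum_le (RR_nonempty z D)
    refine hsum.trans (le_of_eq ?_)
    rw [Finset.sum_const, nsmul_eq_mul]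
  set U : Finset ℤ := UU z S (tt M X) (TT Z) r with hU
  have hUcard : (U.card : ℝ) ≤ c₁ * l := by
    refine hrU.trans ?_
    have h1 := mu_bound2 z S Z (fun w hw => ⟨(hSd w hw).1, hZ w hw⟩)
    rw [← hμ] at h1
    have h2 : ∏ p ∈ PZ z, (1 - 1 / (p : ℝ)) ≤ 2 * Real.exp C / Real.log l := by
      have h3 := hC z s1 ∅ (by simp)
      simp only [Finset.sdiff_empty, Finset.prod_empty, mul_one] at h3
      refine h3.trans ?_
      rw [div_le_div_iff₀ (by linarith) (by linarith)]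
      have := Real.exp_pos C
      nlinarith
    have h4 : (∑ w ∈ S, Z w / (w.1.totient : ℝ)) ≤ 2 * c * l * Real.log l := by
      refine hZs.trans ?_
      have : c * (l * Real.log (Real.log D)) ≤ c * (l * (2 * Real.log l)) :=
        mul_le_mul_of_nonneg_left (mul_le_mul_of_nonneg_left k6 hlpos.le) hc0.le
      linarith
    have h5 : 0 ≤ ∏ p ∈ PZ z, (1 - 1 / (p : ℝ)) :=
      Finset.prod_nonneg fun p hp => (fac_bd (PZ_prime hp).1.two_le).1.le
    have hll : 0 < Real.log l := by linarith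
    have h6 : 3 * (∑ w ∈ S, Z w / (w.1.totient : ℝ)) * (∏ p ∈ PZ z, (1 - 1 / (p : ℝ))) ≤
        3 * (2 * c * l * Real.log l) * (2 * Real.exp C / Real.log l) := by
      apply mul_le_mul _ h2 h5 (by positivity)
      linarith
    have h7 : 3 * (2 * c * l * Real.log l) * (2 * Real.exp C / Real.log l) = c₁ * l / 2 := by
      have e1 : Real.exp (-C) * Real.exp C = 1 := by rw [← Real.exp_add]; simp
      have e2 : 3 * (2 * c * l * Real.log l) * (2 * Real.exp C / Real.log l) =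
          12 * c * Real.exp C * l := by
        field_simp
        norm_num
      rw [e2, hc]
      calc 12 * (c₁ * Real.exp (-C) / 24) * Real.exp C * l =
            c₁ * (Real.exp (-C) * Real.exp C) * l / 2 := by ring
        _ = _ := by rw [e1]; ring
    have h8 : 10 * (S.card : ℝ) ≤ 10 * m := by
      have : (S.card : ℝ) ≤ m := by exact_mod_cast hSm
      linarith
    linarith
  -- the sizes of the differences
  have hUb : ∀ v ∈ U, |(v : ℝ)| ≤ (D : ℝ) ^ 3 / 2 := by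
    intro v hv
    rw [hU] at hv
    simp only [UU, mem_biUnion, mem_filter, mem_image] at hv
    obtain ⟨w, hw, ⟨t, ht, rfl⟩, -⟩ := hv
    obtain ⟨b1, b2, b3, b4, b5⟩ := hSd w hw
    have e1 := diff_bound (M := M) b1 hX0.le b3 b5 b4 ht
    have hwD : (w.1 : ℝ) ≤ D := by exact_mod_cast Nat.le_of_dvd hD0 b2
    have hZD : Z w ≤ (D : ℝ) ^ 2 := by
      have c1 : Z w / (w.1.totient : ℝ) ≤ ∑ w ∈ S, Z w / (w.1.totient : ℝ) :=
        Finset.single_le_sum (f := fun w => Z w / (w.1.totient : ℝ))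
          (fun w hw => div_nonneg (hZ w hw) (Nat.cast_nonneg _)) hw
      have c2 := (c1.trans hZs).trans k4
      have c3 : (0 : ℝ) < (w.1.totient : ℝ) := by exact_mod_cast Nat.totient_pos.2 b1
      rw [div_le_iff₀ c3] at c2
      have c4 : (w.1.totient : ℝ) ≤ D := by
        have : (w.1.totient : ℝ) ≤ w.1 := by exact_mod_cast Nat.totient_le _
        linarith
      nlinarith
    have e6 : |M| = M := abs_of_nonneg hM0
    rw [e6] at e1
    nlinarith
  -- the excluded primes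
  set pf := D.primeFactors with hpf
  set Ex : Finset ℕ := (U ×ˢ U).biUnion (fun q => (q.1 - q.2).natAbs.primeFactors) with hEx
  have hExc : (Ex.card : ℝ) ≤ (c₁ * l) ^ 2 * (2 * (3 * Real.log D)) := by
    have h1 : (Ex.card : ℝ) ≤ ∑ q ∈ U ×ˢ U, (((q.1 - q.2).natAbs.primeFactors.card : ℕ) : ℝ) := by
      rw [← Nat.cast_sum]
      exact Nat.cast_le.2 Finset.card_biUnion_le
    have h2 : ∀ q ∈ U ×ˢ U, (((q.1 - q.2).natAbs.primeFactors.card : ℕ) : ℝ) ≤
        2 * (3 * Real.log D) := by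
      intro q hq
      rw [mem_product] at hq
      by_cases h0 : (q.1 - q.2).natAbs = 0
      · rw [h0]
        simp
        linarith
      · refine (card_primeFactors_le _ h0).trans ?_
        apply mul_le_mul_of_nonneg_left _ (by norm_num)
        have h3 : (((q.1 - q.2).natAbs : ℕ) : ℝ) ≤ (D : ℝ) ^ 3 := by
          rw [Nat.cast_natAbs]
          push_cast
          have e1 := hUb q.1 hq.1
          have e2 := hUb q.2 hq.2
          have e3 : |(q.1 : ℝ) - q.2| ≤ |(q.1 : ℝ)| + |(q.2 : ℝ)| := abs_sub _ _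
          linarith
        have h4 := Real.log_le_log (by
          have : 0 < (q.1 - q.2).natAbs := Nat.pos_of_ne_zero h0
          exact_mod_cast this) h3
        rw [Real.log_pow] at h4
        push_cast at h4
        exact h4
    have h3 : ((U ×ˢ U).card : ℝ) ≤ (c₁ * l) ^ 2 := by
      rw [card_product]
      push_cast
      have : (0 : ℝ) ≤ U.card := Nat.cast_nonneg _
      nlinarith
    calc (Ex.card : ℝ) ≤ ∑ q ∈ U ×ˢ U, 2 * (3 * Real.log D) := h1.trans (Finset.sum_le_sum h2)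
      _ = ((U ×ˢ U).card : ℝ) * (2 * (3 * Real.log D)) := by rw [Finset.sum_const, nsmul_eq_mul]
      _ ≤ _ := mul_le_mul_of_nonneg_right h3 (by positivity)
  have hBc : 2 * (((pf ∪ Ex).card : ℕ) : ℝ) ≤ (Real.log X) ^ 4 := by
    have h1 : (((pf ∪ Ex).card : ℕ) : ℝ) ≤ pf.card + Ex.card := by
      exact_mod_cast Finset.card_union_le _ _
    have h2 := card_primeFactors_le D hD0.ne'
    rw [← hpf] at h2
    rw [hlogX]
    refine le_trans ?_ k8
    linarith
  -- residues modulo the large primes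
  have hl4 : l ≤ l ^ 4 := by
    have : 1 ≤ l ^ 3 := one_le_pow₀ (by linarith)
    nlinarith
  have hinv : ∀ p : ℕ, p.Prime → l ^ 4 < p → ∃ u : ℤ, (p : ℤ) ∣ Q * u - 1 := by
    intro p hp hpl
    have h1 : Nat.Coprime Q p := by
      rw [hQ]
      unfold QZ
      apply Nat.Coprime.prod_left
      intro q hq
      rw [Nat.coprime_primes (PZ_prime hq).1 hp]
      rintro rfl
      have h2 : (q : ℝ) ≤ z := by exact_mod_cast (PZ_prime hq).2
      linarith
    obtain ⟨u, w, huw⟩ := Nat.isCoprime_iff_coprime.2 h1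
    refine ⟨u, -w, ?_⟩
    linear_combination huw
  choose! inv hinv using hinv
  set res : ℕ → {v // v ∈ U} → ℤ := fun p v => -((r : ℤ) + v.1) * inv p with hres
  -- the candidates
  set Y : ℕ := ⌊X ^ (1 / 10 : ℝ)⌋₊ with hY
  have hYle : (Y : ℝ) ≤ X ^ (1 / 10 : ℝ) := Nat.floor_le (by positivity)
  set m0 : ℤ := ⌊(M - r) / Q⌋ + 1 with hm0
  set Ln : ℕ := ⌊X / Q - 2⌋₊ with hLn
  set 𝒜₀ := (Finset.Ico m0 (m0 + Ln)).filter (fun x => IsCoprime ((r : ℤ) + Q * x) (DB z D : ℤ))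
    with h𝒜₀
  set 𝒜 := 𝒜₀.filter (fun x => ¬ (r : ℤ) + Q * x ∈ EX M X S Y) with h𝒜
  have hXQ : X ^ (43 / 50 : ℝ) ≤ X / Q := by
    rw [le_div_iff₀ hQR]
    calc X ^ (43 / 50 : ℝ) * Q ≤ X ^ (43 / 50 : ℝ) * X ^ (7 / 50 : ℝ) :=
          mul_le_mul_of_nonneg_left hQle (by positivity)
      _ = X := by rw [← Real.rpow_add hX0]; norm_num
  have hbig : ∀ e : ℝ, 1 / 50 ≤ e → 16 ≤ X ^ e := by
    intro e he
    rw [Real.rpow_def_of_pos hX0, hlogX]
    have h1 : (8 : ℝ) ≤ l * e := by nlinarith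
    have h2 := Real.exp_le_exp.2 h1
    have h3 : (16 : ℝ) ≤ Real.exp 8 := by
      have h4 : Real.exp 8 = Real.exp 1 ^ 8 := by
        rw [← Real.exp_nat_mul]; norm_num
      have h5 := Real.exp_one_gt_d9
      rw [h4]
      calc (16 : ℝ) ≤ 2 ^ 8 := by norm_num
        _ ≤ Real.exp 1 ^ 8 := pow_le_pow_left₀ (by norm_num) (by linarith) 8
    exact h3.trans h2
  have hXQ16 : 16 ≤ X / Q := (hbig (43 / 50) (by norm_num)).trans hXQ
  have hLn1 : X / Q / 2 ≤ Ln := by
    have h1 : X / Q - 2 < Ln + 1 := Nat.lt_floor_add_one _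
    linarith
  have hLn2 : (Ln : ℝ) ≤ X / Q - 2 := Nat.floor_le (by linarith)
  have hN : X ^ (1 / 2 : ℝ) ≤ Ln * (((DB z D).totient : ℕ) : ℝ) / DB z D := by
    have h1 : X ^ (43 / 50 : ℝ) = X ^ (18 / 50 : ℝ) * X ^ (1 / 2 : ℝ) := by
      rw [← Real.rpow_add hX0]; norm_num
    have h2 := hbig (18 / 50) (by norm_num)
    have h3 : 0 < X ^ (1 / 2 : ℝ) := by positivity
    have h4 : 4 * X ^ (1 / 2 : ℝ) ≤ X / Q := by
      refine le_trans ?_ hXQ
      rw [h1]
      nlinarith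
    have h5 : 2 * X ^ (1 / 2 : ℝ) ≤ Ln := by linarith
    calc X ^ (1 / 2 : ℝ) = 2 * X ^ (1 / 2 : ℝ) * (1 / 2) := by ring
      _ ≤ Ln * (((DB z D).totient : ℝ) / DB z D) :=
          mul_le_mul h5 hhalf (by norm_num) (Nat.cast_nonneg _)
      _ = _ := by ring
  have hom : (2 : ℝ) ^ (DB z D).primeFactors.card ≤ X ^ (1 / 10 : ℝ) := by
    rw [DB_primeFactors]
    set F := D.primeFactors.filter (fun p => z < p) with hF
    have hFp : ∀ p ∈ F, p.Prime ∧ z < p := fun p hp =>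
      ⟨Nat.prime_of_mem_primeFactors (mem_filter.1 hp).1, (mem_filter.1 hp).2⟩
    have h1 : z ^ F.card ≤ D := by
      have e1 : z ^ F.card ≤ ∏ p ∈ F, p := by
        rw [← Finset.prod_const]
        exact Finset.prod_le_prod' fun p hp => (hFp p hp).2.le
      exact e1.trans (Nat.le_of_dvd hD0 (DB_dvd z D))
    have h2 : (F.card : ℝ) * Real.log z ≤ Real.log D := by
      have e1 : ((z : ℝ)) ^ F.card ≤ D := by exact_mod_cast h1
      have hzp : (0 : ℝ) < z := by exact_mod_cast (by omega : 0 < z)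
      have e2 := Real.log_le_log (by positivity) e1
      rwa [Real.log_pow] at e2
    have h3 : (F.card : ℝ) * (20 / η) ≤ Real.log D :=
      (mul_le_mul_of_nonneg_left hlogz (Nat.cast_nonneg _)).trans h2
    have h4 : (F.card : ℝ) ≤ l / 20 := by
      rw [hl]
      have e : (F.card : ℝ) * (20 / η) = (F.card : ℝ) * 20 / η := by ring
      rw [e, div_le_iff₀ hη] at h3
      linarith
    have h5 : (2 : ℝ) ^ F.card = Real.exp (F.card * Real.log 2) := by
      rw [← Real.rpow_natCast, Real.rpow_def_of_pos (by norm_num)]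
      ring_nf
    rw [h5, Real.rpow_def_of_pos hX0, hlogX]
    apply Real.exp_le_exp.2
    have h6 := Real.log_two_lt_d9
    have h7 := Real.log_two_gt_d9
    have : (0 : ℝ) ≤ F.card := Nat.cast_nonneg _
    nlinarith
  set Err : ℝ := 2 ^ (DB z D).primeFactors.card + m * Y with hErr
  have hErrle : Err ≤ X ^ (1 / 5 : ℝ) := by
    have e1 : X ^ (1 / 5 : ℝ) = X ^ (1 / 10 : ℝ) * X ^ (1 / 10 : ℝ) := by
      rw [← Real.rpow_add hX0]; norm_num
    have e2 : 0 < X ^ (1 / 10 : ℝ) := by positivity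
    have e3 : (m : ℝ) * Y ≤ m * X ^ (1 / 10 : ℝ) := mul_le_mul_of_nonneg_left hYle (by linarith)
    rw [hErr, e1]
    calc (2 : ℝ) ^ (DB z D).primeFactors.card + m * Y ≤ X ^ (1 / 10 : ℝ) + m * X ^ (1 / 10 : ℝ) := by
          linarith
      _ = (m + 1) * X ^ (1 / 10 : ℝ) := by ring
      _ ≤ _ := mul_le_mul_of_nonneg_right k10 e2.le
  -- apply the covering theorem
  obtain ⟨x, hxA, hx⟩ := hcov X k5 (pf ∪ Ex) hBc {v // v ∈ U}
    (by rw [Fintype.card_coe, hlogX]; exact hUcard) res (by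
      intro p hp hpl _ hpB k k' hkk' hdvd
      rw [mem_union, not_or] at hpB
      rw [hlogX] at hpl
      have h1 := hinv p hp hpl
      have hpi : Prime (p : ℤ) := Nat.prime_iff_prime_int.1 hp
      have h2 : res p k - res p k' = -((k.1 - k'.1) * inv p) := by
        simp only [hres]; ring
      rw [h2, dvd_neg] at hdvd
      rcases hpi.dvd_or_dvd hdvd with h3 | h3
      · have h5 : (k.1 - k'.1).natAbs ≠ 0 := by
          intro h0
          apply hkk'
          apply Subtype.ext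
          omega
        apply hpB.2
        rw [hEx, mem_biUnion]
        exact ⟨(k.1, k'.1), mem_product.2 ⟨k.2, k'.2⟩,
          Nat.mem_primeFactors.2 ⟨hp, Int.natCast_dvd.1 h3, h5⟩⟩
      · have h6 : (p : ℤ) ∣ 1 := by
          have h7 : (p : ℤ) ∣ Q * inv p := Dvd.dvd.mul_left h3 _
          have := dvd_sub h7 h1
          simpa using this
        exact hpi.not_isUnit (isUnit_of_dvd_one h6))
    𝒜 (Ln * (((DB z D).totient : ℕ) : ℝ) / DB z D) Err hN (by rw [hErr]; positivity) hErrle (by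
      intro q hq _ hqp ρ
      have hqpos : 0 < q := Nat.pos_of_ne_zero hq.ne_zero
      have hqd : Nat.Coprime q (DB z D) := by
        rw [Nat.coprime_iff_gcd_eq_one]
        by_contra hg
        obtain ⟨p, hp, hpg⟩ := Nat.exists_prime_and_dvd hg
        have h1 : p ∣ q := hpg.trans (Nat.gcd_dvd_left _ _)
        have h2 : p ∣ D := (hpg.trans (Nat.gcd_dvd_right _ _)).trans (DB_dvd z D)
        exact (hqp p (Nat.mem_primeFactors.2 ⟨hp, h1, hqpos.ne'⟩)).2
          (mem_union_left _ (Nat.mem_primeFactors.2 ⟨hp, h2, hD0.ne'⟩))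
      have h1 := count_main (DB z D) Q q hDBpos.ne' hqpos (QZ_coprime_DB z D) hqd r m0 ρ Ln
      rw [← h𝒜₀] at h1
      have h2 : ((𝒜.filter (fun x => (q : ℤ) ∣ x - ρ)).card : ℝ) ≤
          ((𝒜₀.filter (fun x => (q : ℤ) ∣ x - ρ)).card : ℝ) := by
        norm_cast
        apply Finset.card_le_card
        intro y hy
        rw [mem_filter] at hy ⊢
        exact ⟨(mem_filter.1 hy.1).1, hy.2⟩
      have h3 : ((𝒜₀.filter (fun x => (q : ℤ) ∣ x - ρ)).card : ℝ) ≤
          ((𝒜.filter (fun x => (q : ℤ) ∣ x - ρ)).card : ℝ) + m * Y := by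
        have h4 : (𝒜₀.filter (fun x => (q : ℤ) ∣ x - ρ)).card ≤
            (𝒜.filter (fun x => (q : ℤ) ∣ x - ρ)).card + (EX M X S Y).card := by
          have h5 : 𝒜₀.filter (fun x => (q : ℤ) ∣ x - ρ) ⊆
              𝒜.filter (fun x => (q : ℤ) ∣ x - ρ) ∪
                𝒜₀.filter (fun x => (r : ℤ) + Q * x ∈ EX M X S Y) := by
            intro y hy
            rw [mem_filter] at hy
            rw [mem_union]
            by_cases h6 : (r : ℤ) + Q * y ∈ EX M X S Y
            · exact Or.inr (mem_filter.2 ⟨hy.1, h6⟩)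
            · exact Or.inl (mem_filter.2 ⟨mem_filter.2 ⟨hy.1, h6⟩, hy.2⟩)
          refine (Finset.card_le_card h5).trans ((Finset.card_union_le _ _).trans ?_)
          apply Nat.add_le_add_left
          apply Finset.card_le_card_of_injOn (fun x => (r : ℤ) + Q * x)
          · intro y hy
            rw [Finset.mem_coe, mem_filter] at hy
            exact hy.2
          · intro y _ y' _ hyy
            have h6 : (Q : ℤ) * y = Q * y' := by
              have : (r : ℤ) + Q * y = r + Q * y' := hyy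
              linarith
            exact mul_left_cancel₀ (by exact_mod_cast hQpos.ne') h6
        have h5 := EX_card M X m S hSm hX0 (fun w hw => ⟨(hSd w hw).1, (hSd w hw).2.2.1⟩) Y
        have h6 : ((𝒜₀.filter (fun x => (q : ℤ) ∣ x - ρ)).card : ℝ) ≤
            ((𝒜.filter (fun x => (q : ℤ) ∣ x - ρ)).card : ℝ) + (EX M X S Y).card := by
          exact_mod_cast h4
        have h7 : ((EX M X S Y).card : ℝ) ≤ m * Y := by exact_mod_cast h5
        linarith
      have h4 := abs_le.1 h1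
      have h5 : (0 : ℝ) ≤ m * Y := by positivity
      rw [hErr, abs_le]
      constructor <;> linarith [h4.1, h4.2])
  rw [h𝒜, Finset.mem_filter, h𝒜₀, Finset.mem_filter, Finset.mem_Ico] at hxA
  obtain ⟨⟨⟨hx1, hx2⟩, hxc⟩, hxE⟩ := hxA
  have hx1R : (M - r) / Q < (x : ℝ) := by
    have h1 := Int.lt_floor_add_one ((M - r) / (Q : ℝ))
    have h2 : ((m0 : ℤ) : ℝ) ≤ x := by exact_mod_cast hx1
    rw [hm0] at h2
    push_cast at h2
    linarith
  have hx2R : (x : ℝ) ≤ (M - r) / Q + X / Q := by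
    have h1 := Int.floor_le ((M - r) / (Q : ℝ))
    have h2 : (x : ℝ) < ((m0 + Ln : ℤ) : ℝ) := by exact_mod_cast hx2
    rw [hm0] at h2
    push_cast at h2
    linarith
  have ha1 : M < (((r : ℤ) + Q * x : ℤ) : ℝ) := by
    rw [div_lt_iff₀ hQR] at hx1R
    push_cast
    linarith
  have ha2 : (((r : ℤ) + Q * x : ℤ) : ℝ) ≤ M + X := by
    rw [← add_div, le_div_iff₀ hQR] at hx2R
    push_cast
    linarith
  refine ⟨(r : ℤ) + Q * x, ha1, ha2, ?_, ?_⟩
  · -- coprimality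
    rw [Int.isCoprime_iff_gcd_eq_one]
    by_contra hg
    obtain ⟨p, hp, hpg⟩ := Nat.exists_prime_and_dvd hg
    have h5 : (p : ℤ) ∣ (r : ℤ) + Q * x :=
      (Int.natCast_dvd_natCast.2 hpg).trans (Int.gcd_dvd_left _ _)
    have h6 : (p : ℤ) ∣ (D : ℤ) := (Int.natCast_dvd_natCast.2 hpg).trans (Int.gcd_dvd_right _ _)
    have h7 : p ∣ D := by exact_mod_cast h6
    by_cases hpz : p ≤ z
    · have hpP : p ∈ PZ z := mem_PZ.2 ⟨hp, hpz⟩
      rw [RR, mem_filter] at hr
      apply hr.2 p hpP h7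
      have h8 : (p : ℤ) ∣ (Q : ℤ) := Int.natCast_dvd_natCast.2 (dvd_QZ hpP)
      have h9 : (p : ℤ) ∣ (r : ℤ) := (dvd_add_left (h8.mul_right _)).1 h5
      exact_mod_cast h9
    · push Not at hpz
      have h8 : p ∣ DB z D := Finset.dvd_prod_of_mem (fun p => p)
        (mem_filter.2 ⟨Nat.mem_primeFactors.2 ⟨hp, h7, hD0.ne'⟩, hpz⟩)
      have h9 : (p : ℤ) ∣ (DB z D : ℤ) := Int.natCast_dvd_natCast.2 h8
      exact (Nat.prime_iff_prime_int.1 hp).not_isUnit (hxc.isUnit_of_dvd' h5 h9)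
  · intro w hw n hn hnm
    by_contra hcon
    push Not at hcon
    obtain ⟨hw1, hw2, hw3, hw4, hw5⟩ := hSd w hw
    obtain ⟨t, ht, htn⟩ := diff_mem hw1 hw3 hw5 ha1 ha2 hn.one_lt.le hnm hcon
    have hnX : (n : ℝ) ≤ X ^ (1 / 10 : ℝ) := by
      by_cases hv : ∀ p ∈ PZ z, ¬ p ∣ w.1 → ¬ (p : ℤ) ∣ (r : ℤ) + ((w.2 : ℤ) + w.1 * t)
      · have hvU : ((w.2 : ℤ) + w.1 * t) ∈ U := by
          rw [hU, UU, mem_biUnion]
          refine ⟨w, hw, ?_⟩
          rw [mem_filter, mem_image]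
          exact ⟨⟨t, ht, rfl⟩, hv⟩
        obtain ⟨p, hp, hpl, hpX, hpB, hpd⟩ := hx ⟨_, hvU⟩
        rw [hlogX] at hpl
        have h1 := hinv p hp hpl
        have h2 : (p : ℤ) ∣ (n : ℤ) := by
          have e : (n : ℤ) = Q * (x - res p ⟨(w.2 : ℤ) + w.1 * t, hvU⟩) -
              ((r : ℤ) + ((w.2 : ℤ) + w.1 * t)) * (Q * inv p - 1) := by
            simp only [hres]
            have e2 : (n : ℤ) = ((r : ℤ) + Q * x) + ((w.2 : ℤ) + w.1 * t) := by linarith
            rw [e2]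
            ring
          rw [e]
          exact dvd_sub (Dvd.dvd.mul_left hpd _) (Dvd.dvd.mul_left h1 _)
        have h3 : p ∣ n := by exact_mod_cast h2
        rw [← (Nat.prime_dvd_prime_iff_eq hp hn).1 h3]
        exact hpX
      · push Not at hv
        obtain ⟨p, hp, hpd, hpv⟩ := hv
        have h8 : (p : ℤ) ∣ (Q : ℤ) := Int.natCast_dvd_natCast.2 (dvd_QZ hp)
        have e : (n : ℤ) = ((r : ℤ) + ((w.2 : ℤ) + w.1 * t)) + Q * x := by
          linarith
        have h9 : (p : ℤ) ∣ (n : ℤ) := by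
          rw [e]
          exact dvd_add hpv (h8.mul_right _)
        have h3 : p ∣ n := by exact_mod_cast h9
        rw [← (Nat.prime_dvd_prime_iff_eq (PZ_prime hp).1 hn).1 h3]
        have h10 : (p : ℝ) ≤ z := by exact_mod_cast (PZ_prime hp).2
        have h11 : l / 10 ≤ X ^ (1 / 10 : ℝ) := by
          rw [Real.rpow_def_of_pos hX0, hlogX]
          have := Real.add_one_le_exp (l * (1 / 10))
          linarith
        linarith
    apply hxE
    rw [EX, mem_biUnion]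
    refine ⟨(w, n), mem_product.2 ⟨hw, mem_Icc.2 ⟨hn.one_lt.le, Nat.le_floor hnX⟩⟩, ?_⟩
    rw [mem_filter, mem_Icc]
    refine ⟨⟨?_, ?_⟩, ha1, ha2, hnm⟩
    · have := Int.floor_le M
      have h6 : ((⌊M⌋ : ℤ) : ℝ) < (((r : ℤ) + Q * x : ℤ) : ℝ) := by linarith
      exact_mod_cast h6.le
    · have := Int.le_ceil (M + X)
      have h6 : (((r : ℤ) + Q * x : ℤ) : ℝ) ≤ ((⌈M + X⌉ : ℤ) : ℝ) := by linarith
      exact_mod_cast h6

theorem rec_final : ∃ c : ℝ, 0 < c ∧ ∀ (m : ℕ) (η : ℝ), 1 ≤ m → 0 < η → η ≤ 1 →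
    ∃ D₀ : ℕ, ∀ D : ℕ, D₀ ≤ D → ∀ S : Finset (ℕ × ℕ), S.card ≤ m →
    (∀ w ∈ S, w.1 ∣ D ∧ (D : ℝ) ^ η ≤ w.1 ∧ w.2 < w.1) → ∀ Z : ℕ × ℕ → ℝ, (∀ w ∈ S, 0 ≤ Z w) →
    ∑ w ∈ S, Z w / (w.1.totient : ℝ) ≤ c * (η * Real.log D * Real.log (Real.log D)) →
    ∀ M : ℝ, (NS M ((D : ℝ) ^ η) D S Z).Nonempty := by
  obtain ⟨c, hc, h⟩ := rec_core
  refine ⟨c, hc, fun m η hm hη hη1 => ?_⟩
  obtain ⟨D₀, h⟩ := h m η hm hη hη1
  refine ⟨max D₀ 1, fun D hD S hSm hS Z hZ hZs M => ?_⟩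
  have hD4 : 1 ≤ D := (le_max_right _ _).trans hD
  have hDpos : (0 : ℝ) < D := by exact_mod_cast hD4
  obtain ⟨s, hs⟩ : ∃ s : ℤ, s = ⌊M / D⌋ := ⟨_, rfl⟩
  have hs1 : 0 ≤ M - s * D := by
    have := Int.floor_le (M / D)
    rw [← hs, le_div_iff₀ hDpos] at this
    linarith
  have hs2 : M - s * D ≤ D := by
    have := Int.lt_floor_add_one (M / D)
    rw [← hs, div_lt_iff₀ hDpos] at this
    linarith
  have h1 := h D ((le_max_left _ _).trans hD) S hSm hS Z hZ hZs (M - s * D) hs1 hs2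
  have h2 : 0 < (NS (M - s * D) ((D : ℝ) ^ η) D S Z).ncard :=
    (Set.ncard_pos (NS_finite _ _ _ _ _)).2 h1
  have h3 := NS_shift (M - s * D) ((D : ℝ) ^ η) D S (fun w hw => (hS w hw).1) Z s
  have e1 : M - s * D + s * D = M := by ring
  rw [e1] at h3
  exact (Set.ncard_pos (NS_finite _ _ _ _ _)).1 (lt_of_lt_of_le h2 h3)

end Pool.Agent.J6H61.SM
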