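import Pool.Agent.J6H61.SM.Pre
import Pool.Agent.N837.LP.FinG

set_option autoImplicit false
set_option linter.unusedVariables false

/-! # Several moduli at the same time: one residue class modulo the small primes -/

namespace Pool.Agent.J6H61.SM

open Finset Filter Pool.Agent.H256R2.SC.G3 Pool.Agent.N837.LP

open scoped Classical

/-- the integers `a` in `(M, M + X]` prime to `D` such that for `w = (d, h) ∈ S` every positive integer
`n ≤ Z w` in the class `a + h` modulo `d` has a prime factor at most `y` -/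
def HS (M X y : ℝ) (D : ℕ) (S : Finset (ℕ × ℕ)) (Z : ℕ × ℕ → ℝ) : Set ℤ :=
  {a : ℤ | M < a ∧ (a : ℝ) ≤ M + X ∧ IsCoprime a (D : ℤ) ∧
    ∀ w ∈ S, ∀ n : ℕ, 1 ≤ n → (n : ℤ) ≡ a + w.2 [ZMOD w.1] → (n : ℝ) ≤ Z w →
      ∃ p : ℕ, p.Prime ∧ (p : ℝ) ≤ y ∧ p ∣ n}

theorem HS_finite (M X y : ℝ) (D : ℕ) (S : Finset (ℕ × ℕ)) (Z : ℕ × ℕ → ℝ) :
    (HS M X y D S Z).Finite := by
  apply (Set.finite_Icc ⌊M⌋ ⌈M + X⌉).subset
  intro a ha
  obtain ⟨h1, h2, _⟩ := ha
  rw [Set.mem_Icc]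
  constructor
  · have := Int.floor_le M
    have h3 : ((⌊M⌋ : ℤ) : ℝ) < a := by linarith
    exact_mod_cast h3.le
  · have := Int.le_ceil (M + X)
    have h3 : (a : ℝ) ≤ ((⌈M + X⌉ : ℤ) : ℝ) := by linarith
    exact_mod_cast h3

/-- the first value of `t` -/
noncomputable def tt (M X : ℝ) (w : ℕ × ℕ) : ℤ := ⌊(-M - X - w.2) / (w.1 : ℝ)⌋

/-- the number of values of `t` -/
noncomputable def TT (Z : ℕ × ℕ → ℝ) (w : ℕ × ℕ) : ℕ := ⌊Z w / w.1⌋₊ + 3

/-- the differences `n - a` -/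
theorem diff_mem {M X : ℝ} {w : ℕ × ℕ} {Z : ℕ × ℕ → ℝ} (hw : 0 < w.1) (hX : X ≤ w.1) (hZ : 0 ≤ Z w)
    {a : ℤ} (ha1 : M < a) (ha2 : (a : ℝ) ≤ M + X) {n : ℕ} (hn1 : 1 ≤ n)
    (hn : (n : ℤ) ≡ a + w.2 [ZMOD w.1]) (hnZ : (n : ℝ) ≤ Z w) :
    ∃ t ∈ Finset.Ico (tt M X w) (tt M X w + TT Z w), (n : ℤ) - a = (w.2 : ℤ) + w.1 * t := by
  obtain ⟨t, ht⟩ := (Int.modEq_iff_dvd.1 hn.symm)
  have hdr : (0 : ℝ) < w.1 := by exact_mod_cast hw
  refine ⟨t, ?_, by linarith⟩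
  have htR : (w.1 : ℝ) * t = n - a - w.2 := by
    have h1 : ((w.1 : ℤ) * t : ℤ) = (n : ℤ) - a - w.2 := by linarith
    have h2 : (((w.1 : ℤ) * t : ℤ) : ℝ) = (((n : ℤ) - a - w.2 : ℤ) : ℝ) := by rw [h1]
    push_cast at h2
    exact h2
  have hn1R : (1 : ℝ) ≤ n := by exact_mod_cast hn1
  rw [mem_Ico]
  constructor
  · have h1 : (-M - X - w.2) / (w.1 : ℝ) ≤ t := by
      rw [div_le_iff₀ hdr]
      linarith
    have h2 := (Int.floor_le ((-M - X - w.2) / (w.1 : ℝ))).trans h1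
    unfold tt
    exact_mod_cast h2
  · have h1 : (t : ℝ) ≤ (-M - X - w.2) / (w.1 : ℝ) + Z w / w.1 + 1 := by
      have e : (-M - X - w.2) / (w.1 : ℝ) + Z w / w.1 + 1 = (-M - X - w.2 + Z w + w.1) / w.1 := by
        field_simp
      rw [e, le_div_iff₀ hdr]
      linarith
    have h2 := Int.lt_floor_add_one ((-M - X - w.2) / (w.1 : ℝ))
    have h3 := Nat.lt_floor_add_one (Z w / (w.1 : ℝ))
    have h4 : (t : ℝ) < ((tt M X w + TT Z w : ℤ) : ℝ) := by
      unfold tt TT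
      push_cast
      linarith
    exact_mod_cast h4

/-- the size of the differences -/
theorem diff_bound {M X : ℝ} {w : ℕ × ℕ} {Z : ℕ × ℕ → ℝ} (hw : 0 < w.1) (hX0 : 0 ≤ X) (hX : X ≤ w.1)
    (hZ : 0 ≤ Z w) (hw2 : w.2 < w.1) {t : ℤ}
    (ht : t ∈ Finset.Ico (tt M X w) (tt M X w + TT Z w)) :
    |(((w.2 : ℤ) + w.1 * t : ℤ) : ℝ)| ≤ |M| + Z w + 5 * w.1 := by
  have hdr : (0 : ℝ) < w.1 := by exact_mod_cast hw
  rw [mem_Ico] at ht
  have h1 : (tt M X w : ℝ) ≤ t := by exact_mod_cast ht.1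
  have h2 : (t : ℝ) < tt M X w + TT Z w := by exact_mod_cast ht.2
  have h3 := Int.floor_le ((-M - X - w.2) / (w.1 : ℝ))
  have h4 := Int.lt_floor_add_one ((-M - X - w.2) / (w.1 : ℝ))
  have h5 : (tt M X w : ℝ) ≤ (-M - X - w.2) / (w.1 : ℝ) := h3
  have h6 : (-M - X - w.2) / (w.1 : ℝ) < tt M X w + 1 := h4
  have h7 : (TT Z w : ℝ) ≤ Z w / w.1 + 3 := by
    unfold TT
    push_cast
    have := Nat.floor_le (show 0 ≤ Z w / (w.1 : ℝ) by positivity)
    linarith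
  rw [div_lt_iff₀ hdr] at h6
  have e1 : (w.1 : ℝ) * ((-M - X - w.2) / (w.1 : ℝ)) = -M - X - w.2 := by field_simp
  have e2 : (w.1 : ℝ) * (Z w / w.1) = Z w := by field_simp
  have hw2R : (w.2 : ℝ) ≤ w.1 := by exact_mod_cast hw2.le
  have hw20 : (0 : ℝ) ≤ w.2 := Nat.cast_nonneg _
  have hM1 := neg_abs_le M
  have hM2 := le_abs_self M
  push_cast
  rw [abs_le]
  constructor
  · have h8 : (w.1 : ℝ) * tt M X w ≤ w.1 * t := mul_le_mul_of_nonneg_left h1 hdr.le
    nlinarith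
  · have h8 : (w.1 : ℝ) * t ≤ w.1 * ((-M - X - w.2) / (w.1 : ℝ) + (Z w / w.1 + 3)) :=
      mul_le_mul_of_nonneg_left (by linarith) hdr.le
    rw [mul_add, mul_add, e1, e2] at h8
    linarith

/-- the product of the primes `p ∣ D`, `p > z` -/
noncomputable def DB (z D : ℕ) : ℕ := ∏ p ∈ D.primeFactors.filter (fun p => z < p), p

theorem DB_pos (z D : ℕ) : 0 < DB z D :=
  Finset.prod_pos fun p hp => (Nat.prime_of_mem_primeFactors (mem_filter.1 hp).1).pos

theorem DB_dvd (z D : ℕ) : DB z D ∣ D := by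
  unfold DB
  apply Finset.prod_primes_dvd
  · intro p hp
    exact (Nat.prime_of_mem_primeFactors (mem_filter.1 hp).1).prime
  · intro p hp
    exact Nat.dvd_of_mem_primeFactors (mem_filter.1 hp).1

theorem DB_primeFactors (z D : ℕ) : (DB z D).primeFactors = D.primeFactors.filter (fun p => z < p) := by
  unfold DB
  exact Nat.primeFactors_prod fun p hp => Nat.prime_of_mem_primeFactors (mem_filter.1 hp).1

theorem QZ_coprime_DB (z D : ℕ) : Nat.Coprime (QZ z) (DB z D) := by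
  unfold QZ DB
  apply Nat.Coprime.prod_left
  intro p hp
  apply Nat.Coprime.prod_right
  intro q hq
  rw [mem_filter] at hq
  have h1 := PZ_prime hp
  rw [Nat.coprime_primes h1.1 (Nat.prime_of_mem_primeFactors hq.1)]
  rintro rfl
  omega

/-- **one class modulo the small primes** -/
theorem one_class (z D : ℕ) (hD : 0 < D) (S : Finset (ℕ × ℕ)) (Z : ℕ × ℕ → ℝ) (M X y : ℝ) (r : ℕ)
    (hX0 : 0 < X) (hS : ∀ w ∈ S, 0 < w.1 ∧ w.1 ∣ D ∧ X ≤ w.1 ∧ w.2 < w.1 ∧ 0 ≤ Z w)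
    (hr : r ∈ RR z D) (hzy : (z : ℝ) ≤ y) (y' : ℝ) (hy' : y' ≤ y) (s : ℕ)
    (hs : (DB z D : ℤ) ∣ (r : ℤ) + QZ z * s) :
    (RG ((M - r) / QZ z - s) (X / QZ z) y' (DB z D)
      (fun _ : {v // v ∈ UU z S (tt M X) (TT Z) r} => (QZ z : ℤ))
      (fun v => (r : ℤ) + QZ z * s + v.1)).ncard ≤
    ({a ∈ HS M X y D S Z | a ≡ r [ZMOD QZ z]} : Set ℤ).ncard := by
  have hQ : 0 < QZ z := QZ_pos z
  have hQR : (0 : ℝ) < QZ z := by exact_mod_cast hQ
  refine Set.ncard_le_ncard_of_injOn (fun u : ℤ => (r : ℤ) + QZ z * s + QZ z * u) ?_ ?_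
    ((HS_finite M X y D S Z).subset (fun a ha => ha.1))
  · intro u hu
    obtain ⟨h1, h2, h3, h4⟩ := hu
    have ha1 : M < (((r : ℤ) + QZ z * s + QZ z * u : ℤ) : ℝ) := by
      push_cast
      have h5 : (M - r) / QZ z < u + s := by linarith
      rw [div_lt_iff₀ hQR] at h5
      linarith
    have ha2 : (((r : ℤ) + QZ z * s + QZ z * u : ℤ) : ℝ) ≤ M + X := by
      push_cast
      have h5 : (u : ℝ) + s ≤ (M - r + X) / QZ z := by
        rw [add_div]
        linarith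
      rw [le_div_iff₀ hQR] at h5
      linarith
    have hamod : ((r : ℤ) + QZ z * s + QZ z * u) ≡ r [ZMOD QZ z] := by
      apply Int.ModEq.symm
      rw [Int.modEq_iff_dvd]
      exact ⟨s + u, by ring⟩
    refine ⟨⟨ha1, ha2, ?_, ?_⟩, hamod⟩
    · -- coprimality
      rw [Int.isCoprime_iff_gcd_eq_one]
      by_contra hg
      obtain ⟨p, hp, hpg⟩ := Nat.exists_prime_and_dvd hg
      have h5 : (p : ℤ) ∣ (r : ℤ) + QZ z * s + QZ z * u :=
        (Int.natCast_dvd_natCast.2 hpg).trans (Int.gcd_dvd_left _ _)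
      have h6 : (p : ℤ) ∣ (D : ℤ) := (Int.natCast_dvd_natCast.2 hpg).trans (Int.gcd_dvd_right _ _)
      have h7 : p ∣ D := by exact_mod_cast h6
      by_cases hpz : p ≤ z
      · have hpP : p ∈ PZ z := mem_PZ.2 ⟨hp, hpz⟩
        rw [RR, mem_filter] at hr
        apply hr.2 p hpP h7
        have h8 : (p : ℤ) ∣ (QZ z : ℤ) := Int.natCast_dvd_natCast.2 (dvd_QZ hpP)
        have h9 : (p : ℤ) ∣ (r : ℤ) := by
          have e : (r : ℤ) + QZ z * s + QZ z * u = r + QZ z * (s + u) := by ring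
          rw [e] at h5
          exact (dvd_add_left (h8.mul_right _)).1 h5
        exact_mod_cast h9
      · push Not at hpz
        have h8 : p ∣ DB z D := Finset.dvd_prod_of_mem (fun p => p)
          (mem_filter.2 ⟨Nat.mem_primeFactors.2 ⟨hp, h7, hD.ne'⟩, hpz⟩)
        have h9 : (p : ℤ) ∣ (DB z D : ℤ) := Int.natCast_dvd_natCast.2 h8
        have h10 : (p : ℤ) ∣ (QZ z : ℤ) * u := (dvd_add_right (h9.trans hs)).1 h5
        rcases (Nat.prime_iff_prime_int.1 hp).dvd_or_dvd h10 with h11 | h11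
        · have h12 : p ∣ QZ z := by exact_mod_cast h11
          have h13 := Nat.dvd_gcd h12 h8
          rw [QZ_coprime_DB z D] at h13
          exact hp.one_lt.ne' (Nat.dvd_one.1 h13)
        · exact (Nat.prime_iff_prime_int.1 hp).not_isUnit (h3.isUnit_of_dvd' h11 h9)
    · intro w hw n hn1 hn hnZ
      obtain ⟨hw1, hw2, hw3, hw4, hw5⟩ := hS w hw
      obtain ⟨t, ht, htn⟩ := diff_mem hw1 hw3 hw5 ha1 ha2 hn1 hn hnZ
      by_cases hv : ∀ p ∈ PZ z, ¬ p ∣ w.1 → ¬ (p : ℤ) ∣ (r : ℤ) + ((w.2 : ℤ) + w.1 * t)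
      · have hvU : ((w.2 : ℤ) + w.1 * t) ∈ UU z S (tt M X) (TT Z) r := by
          rw [UU, mem_biUnion]
          refine ⟨w, hw, ?_⟩
          rw [mem_filter, mem_image]
          exact ⟨⟨t, ht, rfl⟩, hv⟩
        obtain ⟨l, hl, hl1, -, hl3⟩ := h4 ⟨_, hvU⟩
        refine ⟨l, hl, hl1.trans hy', ?_⟩
        have e : (QZ z : ℤ) * u + ((r : ℤ) + QZ z * s + ((w.2 : ℤ) + w.1 * t)) = (n : ℤ) := by
          rw [← htn]; ring
        rw [e] at hl3
        exact_mod_cast hl3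
      · push Not at hv
        obtain ⟨p, hp, hpd, hpv⟩ := hv
        refine ⟨p, (PZ_prime hp).1, ?_, ?_⟩
        · have : (p : ℝ) ≤ z := by exact_mod_cast (PZ_prime hp).2
          linarith
        · have h8 : (p : ℤ) ∣ (QZ z : ℤ) := Int.natCast_dvd_natCast.2 (dvd_QZ hp)
          have e : (n : ℤ) = ((r : ℤ) + ((w.2 : ℤ) + w.1 * t)) + QZ z * (s + u) := by
            rw [← htn]; ring
          have h9 : (p : ℤ) ∣ (n : ℤ) := by
            rw [e]
            exact dvd_add hpv (h8.mul_right _)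
          exact_mod_cast h9
  · intro u _ u' _ huu
    have h1 : (QZ z : ℤ) * u = QZ z * u' := by
      have : (r : ℤ) + QZ z * s + QZ z * u = (r : ℤ) + QZ z * s + QZ z * u' := huu
      linarith
    exact mul_left_cancel₀ (by exact_mod_cast hQ.ne') h1

theorem tele_prod (z : ℕ) : ∏ n ∈ Finset.Ico 2 (z + 2), (1 - 1 / (n : ℝ))⁻¹ = z + 1 := by
  induction z with
  | zero => simp
  | succ z ih =>
    rw [Finset.prod_Ico_succ_top (by omega), ih]
    push_cast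
    have h1 : (z : ℝ) + 1 ≠ 0 := by positivity
    have h2 : (z : ℝ) + 2 ≠ 0 := by positivity
    have h3 : (1 - 1 / ((z : ℝ) + 2)) = (z + 1) / (z + 2) := by
      field_simp
      ring
    rw [h3, inv_div]
    field_simp
    ring

theorem one_sub_sum (s : Finset ℕ) (x : ℕ → ℝ) (h0 : ∀ i ∈ s, 0 ≤ x i) (h1 : ∀ i ∈ s, x i ≤ 1) :
    1 - ∑ i ∈ s, x i ≤ ∏ i ∈ s, (1 - x i) := by
  induction s using Finset.induction_on with
  | empty => simp
  | insert a s ha ih =>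
    have ih' := ih (fun i hi => h0 i (mem_insert_of_mem hi)) (fun i hi => h1 i (mem_insert_of_mem hi))
    rw [sum_insert ha, prod_insert ha]
    have e1 := h0 a (mem_insert_self _ _)
    have e2 := h1 a (mem_insert_self _ _)
    have e3 : ∏ i ∈ s, (1 - x i) ≤ 1 := Finset.prod_le_one
      (fun i hi => by linarith [h1 i (mem_insert_of_mem hi)])
      (fun i hi => by linarith [h0 i (mem_insert_of_mem hi)])
    nlinarith

theorem fac_bd {p : ℕ} (hp : 2 ≤ p) : 0 < 1 - 1 / (p : ℝ) ∧ 1 - 1 / (p : ℝ) ≤ 1 ∧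
    1 ≤ (1 - 1 / (p : ℝ))⁻¹ := by
  have h2 : (2 : ℝ) ≤ p := by exact_mod_cast hp
  have h3 : 1 / (p : ℝ) ≤ 1 / 2 := one_div_le_one_div_of_le (by norm_num) h2
  have h4 : 0 < 1 / (p : ℝ) := by positivity
  refine ⟨by linarith, by linarith, ?_⟩
  rw [one_le_inv₀ (by linarith)]
  linarith

/-- `∏ (1 - 1/p)⁻¹ ≤ z + 1` -/
theorem W_le (z : ℕ) : ∏ p ∈ PZ z, (1 - 1 / (p : ℝ))⁻¹ ≤ z + 1 := by
  rw [← tele_prod z]
  apply Finset.prod_le_prod_of_subset_of_one_le
  · intro p hp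
    have h := PZ_prime hp
    rw [mem_Ico]
    exact ⟨h.1.two_le, by omega⟩
  · intro p hp
    have h := PZ_prime hp
    have := (fac_bd h.1.two_le).2.2
    linarith
  · intro p hp _
    rw [mem_Ico] at hp
    exact (fac_bd hp.1).2.2

theorem QZ_totient (z : ℕ) : ((QZ z).totient : ℝ) / QZ z = ∏ p ∈ PZ z, (1 - 1 / (p : ℝ)) := by
  rw [totient_div (QZ z) (QZ_pos z).ne']
  unfold QZ
  rw [Nat.primeFactors_prod fun p hp => (PZ_prime hp).1]

/-- the proportion of the large prime factors is at least `1 / 2` -/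
theorem DB_half (z D : ℕ) (hD : 0 < D) (hz : 2 ≤ z) (h : 2 * Real.log D ≤ z * Real.log z) :
    1 / 2 ≤ ((DB z D).totient : ℝ) / DB z D := by
  rw [totient_div (DB z D) (DB_pos z D).ne', DB_primeFactors]
  set F := D.primeFactors.filter (fun p => z < p) with hF
  have hFp : ∀ p ∈ F, p.Prime ∧ z < p := fun p hp =>
    ⟨Nat.prime_of_mem_primeFactors (mem_filter.1 hp).1, (mem_filter.1 hp).2⟩
  have hzR : (2 : ℝ) ≤ z := by exact_mod_cast hz
  have hlogz : 0 < Real.log z := Real.log_pos (by linarith)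
  have h1 : z ^ F.card ≤ D := by
    have e1 : z ^ F.card ≤ ∏ p ∈ F, p := by
      rw [← Finset.prod_const]
      exact Finset.prod_le_prod' fun p hp => (hFp p hp).2.le
    exact e1.trans (Nat.le_of_dvd hD (DB_dvd z D))
  have h2 : (F.card : ℝ) * Real.log z ≤ Real.log D := by
    have e1 : ((z : ℝ)) ^ F.card ≤ D := by exact_mod_cast h1
    have e2 := Real.log_le_log (by positivity) e1
    rwa [Real.log_pow] at e2
  have h3 : (F.card : ℝ) / z ≤ 1 / 2 := by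
    rw [div_le_div_iff₀ (by linarith) (by norm_num)]
    by_contra hcon
    push Not at hcon
    have : (z : ℝ) * Real.log z < 2 * (F.card * Real.log z) := by nlinarith
    linarith
  have h4 : ∑ p ∈ F, 1 / (p : ℝ) ≤ (F.card : ℝ) / z := by
    have : ∑ p ∈ F, 1 / (p : ℝ) ≤ ∑ p ∈ F, 1 / (z : ℝ) := by
      apply Finset.sum_le_sum
      intro p hp
      apply one_div_le_one_div_of_le (by linarith)
      exact_mod_cast (hFp p hp).2.le
    rw [Finset.sum_const, nsmul_eq_mul] at this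
    refine this.trans (le_of_eq ?_)
    ring
  have h5 : 1 - ∑ p ∈ F, 1 / (p : ℝ) ≤ ∏ p ∈ F, (1 - 1 / (p : ℝ)) :=
    one_sub_sum F (fun p => 1 / (p : ℝ)) (fun p hp => by positivity) (fun p hp => by
      have := (fac_bd (hFp p hp).1.two_le).1
      linarith)
  linarith

/-- the proportion of the integers prime to `D` -/
theorem ratio (z D : ℕ) (hD : 0 < D) :
    ((RR z D).card : ℝ) / QZ z * (((DB z D).totient : ℝ) / DB z D) = (D.totient : ℝ) / D := by
  rw [totient_div D hD.ne', totient_div (DB z D) (DB_pos z D).ne', DB_primeFactors, RR_card]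
  have h1 : ((∏ p ∈ PZ z, np D p : ℕ) : ℝ) / QZ z =
      ∏ p ∈ D.primeFactors.filter (fun p => ¬ z < p), (1 - 1 / (p : ℝ)) := by
    unfold QZ
    push_cast
    rw [← Finset.prod_div_distrib]
    have h2 : ∀ p ∈ PZ z, (np D p : ℝ) / p = if p ∣ D then (1 - 1 / (p : ℝ)) else 1 := by
      intro p hp
      have hpp := (PZ_prime hp).1
      have : (p : ℝ) ≠ 0 := by exact_mod_cast hpp.ne_zero
      rw [np_eq hpp]
      split_ifs
      · field_simp
      · field_simp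
    rw [Finset.prod_congr rfl h2, ← Finset.prod_filter]
    apply Finset.prod_congr _ (fun _ _ => rfl)
    ext p
    rw [mem_filter, mem_filter, mem_PZ, Nat.mem_primeFactors]
    constructor
    · rintro ⟨⟨a1, a2⟩, a3⟩
      exact ⟨⟨a1, a3, hD.ne'⟩, by omega⟩
    · rintro ⟨⟨a1, a2, -⟩, a3⟩
      exact ⟨⟨a1, by omega⟩, a2⟩
  rw [h1, mul_comm]
  exact Finset.prod_filter_mul_prod_filter_not _ _ _

end Pool.Agent.J6H61.SM
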